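import Pool.Agent.Helper824.Lev.Forms

set_option autoImplicit false
set_option linter.unusedSectionVars false

namespace Pool.Agent.Helper824.Lev

variable {K V : Type} [Field K] [AddCommGroup V] [Module K V]

/-- `f` vanishes on the lists which have `v` in position `m`. -/
def VanAt (v : V) (m : ℕ) (f : Fm K V) : Prop := ∀ l : List V, l[m]? = some v → f l = 0

/-- `f` vanishes on the lists with equal entries in the positions `i` and `j`. -/
def AltAt (i j : ℕ) (f : Fm K V) : Prop :=
  ∀ (l : List V) (v : V), l[i]? = some v → l[j]? = some v → f l = 0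

theorem der_van (T : V →ₗ[K] V) {v : V} {m : ℕ} {F : Fm K V} (hF : VanAt v m F) (l : List V)
    (hl : l[m]? = some v) : der T F l = F (l.set m (T v)) := by
  induction l generalizing m F with
  | nil => simp at hl
  | cons u l ih =>
    rw [der_cons]
    rcases m with _ | m
    · simp only [List.getElem?_cons_zero, Option.some.injEq] at hl
      subst hl
      have h0 : ins u F = 0 := by
        funext l'
        exact hF _ (by simp)
      rw [h0, map_zero, List.set_cons_zero, Pi.zero_apply, add_zero]
    · simp only [List.getElem?_cons_succ] at hl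
      have h1 : VanAt v m (ins u F) := fun l' hl' => hF _ (by simpa using hl')
      rw [ih h1 hl, hF (T u :: l) (by simpa using hl), zero_add]
      rfl

theorem AltAt.der_aux (T : V →ₗ[K] V) {i j : ℕ} (hij : i < j) {f : Fm K V} (hf : ML f)
    (h : AltAt i j f) (l : List V) (v : V) (hi : l[i]? = some v) (hj : l[j]? = some v) :
    der T f l = 0 := by
  induction l generalizing i j f with
  | nil => rfl
  | cons u l ih =>
    obtain ⟨j, rfl⟩ : ∃ j', j = j' + 1 := ⟨j - 1, by omega⟩
    rw [der_cons]
    simp only [List.getElem?_cons_succ] at hj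
    rcases i with _ | i
    · simp only [List.getElem?_cons_zero, Option.some.injEq] at hi
      subst hi
      have h1 : VanAt u j (ins u f) := fun l' hl' => h _ u (by simp) (by simpa using hl')
      rw [der_van T h1 l hj, ins_apply]
      have hlen : j < l.length := by
        by_contra hcon
        rw [List.getElem?_eq_none (by omega)] at hj
        simp at hj
      have e0 : l.set j u = l := by
        apply List.ext_getElem?
        intro k
        rw [List.getElem?_set]
        split_ifs with hk
        · rw [← hk, hj]
        · rfl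
      have e1 : ∀ x : V, f (x :: l.set j x) = 0 := by
        intro x
        apply h _ x (by simp)
        simp only [List.getElem?_cons_succ]
        rw [List.getElem?_set_self hlen]
      have e2 := e1 (u + T u)
      rw [hf.add0] at e2
      have e3 := (hf.ins u).add l j u (T u) hlen
      have e4 := (hf.ins (T u)).add l j u (T u) hlen
      simp only [ins_apply] at e3 e4
      rw [e3, e4, e1, e1, e0] at e2
      rw [zero_add, add_zero] at e2
      rw [add_comm]; exact e2
    · simp only [List.getElem?_cons_succ] at hi
      have h1 : AltAt i j (ins u f) := fun l' w h1 h2 => h _ w (by simpa using h1) (by simpa using h2)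
      rw [ih (by omega) (hf.ins u) h1 hi hj, h (T u :: l) v (by simpa using hi) (by simpa using hj),
        add_zero]

theorem AltAt.der (T : V →ₗ[K] V) {i j : ℕ} (hij : i < j) {f : Fm K V} (hf : ML f)
    (h : AltAt i j f) : AltAt i j (der T f) := fun l v hi hj => h.der_aux T hij hf l v hi hj

theorem AltAt.ins {i j : ℕ} {f : Fm K V} (h : AltAt (i + 1) (j + 1) f) (v : V) :
    AltAt i j (ins v f) := fun _ w h1 h2 => h _ w (by simpa using h1) (by simpa using h2)

/-- Alternating in a set of positions. -/
def AltOn (B : Finset ℕ) (f : Fm K V) : Prop := ∀ i ∈ B, ∀ j ∈ B, i < j → AltAt i j f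

/-- There is a block of `L` alternating positions in an interval. -/
def Has (L : ℕ) (f : Fm K V) (a b : ℕ) : Prop :=
  ∃ B : Finset ℕ, (∀ i ∈ B, a ≤ i ∧ i < b) ∧ L ≤ B.card ∧ AltOn B f

theorem Has.mono {L : ℕ} {f : Fm K V} {a b a' b' : ℕ} (h : Has L f a b) (ha : a' ≤ a)
    (hb : b ≤ b') : Has L f a' b' := by
  obtain ⟨B, h1, h2, h3⟩ := h
  exact ⟨B, fun i hi => ⟨by have := (h1 i hi).1; omega, by have := (h1 i hi).2; omega⟩, h2, h3⟩

theorem Has.der {L : ℕ} {f : Fm K V} {a b : ℕ} (h : Has L f a b) (hf : ML f) (T : V →ₗ[K] V) :
    Has L (der T f) a b := by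
  obtain ⟨B, h1, h2, h3⟩ := h
  exact ⟨B, h1, h2, fun i hi j hj hij => (h3 i hi j hj hij).der T hij hf⟩

theorem Has.ins {L : ℕ} {f : Fm K V} {a b : ℕ} (h : Has L f (a + 1) (b + 1)) (v : V) :
    Has L (ins v f) a b := by
  classical
  obtain ⟨B, h1, h2, h3⟩ := h
  refine ⟨B.image (fun i => i - 1), ?_, ?_, ?_⟩
  · intro i hi
    rw [Finset.mem_image] at hi
    obtain ⟨j, hj, rfl⟩ := hi
    have := h1 j hj
    omega
  · rw [Finset.card_image_of_injOn]
    · exact h2
    · intro i hi j hj hij
      have hi' := h1 i hi
      have hj' := h1 j hj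
      simp only at hij
      omega
  · intro i hi j hj hij
    rw [Finset.mem_image] at hi hj
    obtain ⟨i', hi', rfl⟩ := hi
    obtain ⟨j', hj', rfl⟩ := hj
    have e1 := h1 i' hi'
    have e2 := h1 j' hj'
    have h4 := h3 i' hi' j' hj' (by omega)
    have e3 : i' = (i' - 1) + 1 := by omega
    have e4 : j' = (j' - 1) + 1 := by omega
    rw [e3, e4] at h4
    exact h4.ins v

/-- The dependence on one slot. -/
def slotLin {f : Fm K V} (hf : ML f) (l : List V) (k : ℕ) (hk : k < l.length) : V →ₗ[K] K where
  toFun x := f (l.set k x)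
  map_add' x y := hf.add l k x y hk
  map_smul' c x := hf.smul l k c x hk

theorem AltOn.eq_zero {f : Fm K V} (hf : ML f) {B : Finset ℕ} (hB : AltOn B f) (l : List V)
    (hl : ∀ i ∈ B, i < l.length) (W : Submodule K V) [FiniteDimensional K W]
    (hW : Module.finrank K W < B.card) (hlW : ∀ v ∈ l, v ∈ W) : f l = 0 := by
  classical
  let w : B → V := fun i => l[i.1]'(hl i.1 i.2)
  have hw : ∀ i, w i ∈ W := fun i => hlW _ (List.getElem_mem _)
  have hdep : ¬ LinearIndependent K w := by
    intro hli
    have h1 : LinearIndependent K (fun i : B => (⟨w i, hw i⟩ : W)) := by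
      apply LinearIndependent.of_comp W.subtype
      exact hli
    have h2 := h1.fintype_card_le_finrank
    rw [Fintype.card_coe] at h2
    omega
  rw [linearIndependent_iff_notMem_span] at hdep
  push Not at hdep
  obtain ⟨i, hi⟩ := hdep
  have hker : Submodule.span K (w '' (Set.univ \ {i})) ≤
      LinearMap.ker (slotLin hf l i.1 (hl i.1 i.2)) := by
    rw [Submodule.span_le]
    rintro _ ⟨j, hj, rfl⟩
    have hij : j ≠ i := by simpa using hj
    change f (l.set i.1 (w j)) = 0
    have e1 : (l.set i.1 (w j))[i.1]? = some (w j) := List.getElem?_set_self (hl i.1 i.2)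
    have e2 : (l.set i.1 (w j))[j.1]? = some (w j) := by
      rw [List.getElem?_set_ne (fun h => hij (Subtype.ext h.symm))]
      exact List.getElem?_eq_getElem (hl j.1 j.2)
    rcases lt_or_gt_of_ne (fun h : i.1 = j.1 => hij (Subtype.ext h.symm)) with h | h
    · exact hB i.1 i.2 j.1 j.2 h _ _ e1 e2
    · exact hB j.1 j.2 i.1 i.2 h _ _ e2 e1
  have h3 : f (l.set i.1 (w i)) = 0 := hker hi
  have h4 : l.set i.1 (w i) = l := List.set_getElem_self _
  rwa [h4] at h3

section Good

variable (N : ℕ → ℕ)

/-- The forms which are considered. -/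
def Good (f : Fm K V) : Prop :=
  ML f ∧ ∃ n, Supp n f ∧ ∀ j p, p + N j ≤ n → Has (j + 1) f p (p + N j)

variable (K V) in
/-- The space spanned by the good forms. -/
def MM : Submodule K (Fm K V) := Submodule.span K {f | Good N f}

variable {N}

theorem Good.der {f : Fm K V} (h : Good N f) (T : V →ₗ[K] V) : Good N (der T f) := by
  obtain ⟨h1, n, h2, h3⟩ := h
  exact ⟨h1.der T, n, h2.der T, fun j p hp => (h3 j p hp).der h1 T⟩

theorem Good.ins {f : Fm K V} (h : Good N f) (v : V) : Lev.ins v f = 0 ∨ Good N (Lev.ins v f) := by
  obtain ⟨h1, n, h2, h3⟩ := h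
  rcases n with _ | n
  · left; exact h2.ins_zero v
  · right
    refine ⟨h1.ins v, n, h2.ins v, fun j p hp => ?_⟩
    have h4 := h3 j (p + 1) (by omega)
    rw [show p + 1 + N j = p + N j + 1 by omega] at h4
    exact h4.ins v

theorem MM_der (T : V →ₗ[K] V) {f : Fm K V} (hf : f ∈ MM K V N) : der T f ∈ MM K V N := by
  induction hf using Submodule.span_induction with
  | mem x h => exact Submodule.subset_span (Good.der h T)
  | zero => rw [map_zero]; exact zero_mem _
  | add x y _ _ hx hy => rw [map_add]; exact add_mem hx hy
  | smul a x _ hx => rw [map_smul]; exact Submodule.smul_mem _ _ hx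

theorem MM_ins (v : V) {f : Fm K V} (hf : f ∈ MM K V N) : ins v f ∈ MM K V N := by
  induction hf using Submodule.span_induction with
  | mem x h =>
    rcases Good.ins h v with h1 | h1
    · rw [h1]; exact zero_mem _
    · exact Submodule.subset_span h1
  | zero => rw [map_zero]; exact zero_mem _
  | add x y _ _ hx hy => rw [map_add]; exact add_mem hx hy
  | smul a x _ hx => rw [map_smul]; exact Submodule.smul_mem _ _ hx

theorem MM_ML {f : Fm K V} (hf : f ∈ MM K V N) : ML f := by
  induction hf using Submodule.span_induction with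
  | mem x h => exact h.1
  | zero => exact ML.zero
  | add x y _ _ hx hy => exact hx.of_add hy
  | smul a x _ hx => exact hx.of_smul a

theorem MM_vanish (W : Submodule K V) [FiniteDimensional K W] {f : Fm K V}
    (hf : f ∈ MM K V N) (l l' : List V) (hl : l.length = N (Module.finrank K W))
    (hlW : ∀ v ∈ l, v ∈ W) : f (l ++ l') = 0 := by
  induction hf using Submodule.span_induction with
  | mem f h =>
    obtain ⟨h1, n, h2, h3⟩ := h
    by_cases hn : (l ++ l').length = n
    · have hn' : N (Module.finrank K W) ≤ n := by
        rw [← hn, List.length_append]; omega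
      obtain ⟨B, hB1, hB2, hB3⟩ := h3 (Module.finrank K W) 0 (by omega)
      -- freeze the tail
      have key : ∀ (l₀ l₁ : List V), (∀ v ∈ l₀, v ∈ W) → (∀ i ∈ B, i < l₀.length) →
          f (l₀ ++ l₁) = 0 := by
        intro l₀ l₁ hl₀ hB0
        have hg : ML (fun l => if l.length = l₀.length then f (l ++ l₁) else 0) := by
          refine ⟨fun l k x y hk => ?_, fun l k c x hk => ?_⟩
          · simp only [List.length_set]
            split_ifs with h
            · have e : ∀ z, l.set k z ++ l₁ = (l ++ l₁).set k z := by
                intro z; rw [List.set_append_left _ _ hk]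
              rw [e, e, e]
              exact h1.add _ _ _ _ (by rw [List.length_append]; omega)
            · simp
          · simp only [List.length_set]
            split_ifs with h
            · have e : ∀ z, l.set k z ++ l₁ = (l ++ l₁).set k z := by
                intro z; rw [List.set_append_left _ _ hk]
              rw [e, e]
              exact h1.smul _ _ _ _ (by rw [List.length_append]; omega)
            · simp
        have hgB : AltOn B (fun l : List V => if l.length = l₀.length then f (l ++ l₁) else 0) := by
          intro i hi j hj hij l v h5 h6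
          simp only
          split_ifs with h
          · apply hB3 i hi j hj hij _ v
            · rw [List.getElem?_append_left (by rw [h]; exact hB0 i hi)]; exact h5
            · rw [List.getElem?_append_left (by rw [h]; exact hB0 j hj)]; exact h6
          · rfl
        have := hgB.eq_zero hg l₀ hB0 W (by omega) hl₀
        simpa using this
      exact key l l' hlW (fun i hi => by have := (hB1 i hi).2; omega)
    · exact h2 _ hn
  | zero => rfl
  | add x y _ _ hx hy => rw [Pi.add_apply, hx, hy, add_zero]
  | smul a x _ hx => rw [Pi.smul_apply, hx, smul_zero]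

theorem MM_supp {f : Fm K V} (hf : f ∈ MM K V N) (T : V →ₗ[K] V) (r : ℕ) (hT : T ^ r = 0) :
    ∃ s, ((der T) ^ s) f = 0 := by
  induction hf using Submodule.span_induction with
  | mem f h =>
    obtain ⟨h1, n, h2, _⟩ := h
    obtain ⟨s, hs⟩ := der_pow_eq_zero T r hT n
    exact ⟨s, hs f h1 h2⟩
  | zero => exact ⟨0, rfl⟩
  | add x y _ _ hx hy =>
    obtain ⟨s, hs⟩ := hx
    obtain ⟨t, ht⟩ := hy
    refine ⟨s + t, ?_⟩
    rw [map_add, pow_add, Module.End.mul_apply, Module.End.mul_apply, ht, map_zero,
      add_zero, ← Module.End.mul_apply, ← pow_add, add_comm s t, pow_add, Module.End.mul_apply, hs,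
      map_zero]
  | smul a x _ hx =>
    obtain ⟨s, hs⟩ := hx
    exact ⟨s, by rw [map_smul, hs, smul_zero]⟩

end Good

end Pool.Agent.Helper824.Lev
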