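import Mathlib

set_option autoImplicit false

namespace Pool.Agent.Helper824.Lev

/-- A Lie ring is Engel if for all `x`, `y` some iterated bracket `[...[[y, x], x], ..., x]`, with
at least one bracket, vanishes. -/
def IsEngelLie (A : Type) [LieRing A] : Prop :=
  ∀ x y : A, ∃ n : ℕ, 1 ≤ n ∧ (fun z : A => ⁅z, x⁆)^[n] y = 0

/-- A Lie algebra is locally nilpotent if every finitely generated subalgebra is nilpotent. -/
def LieLocallyNilpotent (F A : Type) [Field F] [LieRing A] [LieAlgebra F A] : Prop :=
  ∀ s : Set A, s.Finite → LieRing.IsNilpotent (LieSubalgebra.lieSpan F A s)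

/-- The locally nilpotent radical of a Lie algebra: the sum of all its locally nilpotent ideals. -/
def lieRadical (F A : Type) [Field F] [LieRing A] [LieAlgebra F A] : LieIdeal F A :=
  sSup {I : LieIdeal F A | LieLocallyNilpotent F I}

/-- The right multiplication `x ↦ [x, a]`. -/
def rightMul (F : Type) {A : Type} [Field F] [LieRing A] [LieAlgebra F A] (a : A) :
    Module.End F A where
  toFun x := ⁅x, a⁆
  map_add' x y := add_lie x y a
  map_smul' c x := smul_lie c x a

/-- The multiplication algebra: the associative subalgebra (without adjoined identity) of the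
algebra of the linear endomorphisms which is generated by the right multiplications. -/
def multAlg (F A : Type) [Field F] [LieRing A] [LieAlgebra F A] :
    NonUnitalSubalgebra F (Module.End F A) :=
  NonUnitalAlgebra.adjoin F (Set.range (fun a : A => rightMul F a))

section

variable {F E : Type} [Field F] [Ring E] [Algebra F E]

/-- A subalgebra (without identity) of an associative algebra is nilpotent if for some `n ≥ 1` all
the products of `n` of its elements vanish. -/
def NilpotentSub (S : NonUnitalSubalgebra F E) : Prop :=
  ∃ n : ℕ, 1 ≤ n ∧ ∀ l : List E, l.length = n → (∀ x ∈ l, x ∈ S) → l.prod = 0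

/-- A subalgebra (without identity) is locally nilpotent if all its finitely generated subalgebras
are nilpotent. -/
def LocallyNilpotentSub (P : NonUnitalSubalgebra F E) : Prop :=
  ∀ s : Set E, s.Finite → s ⊆ P → NilpotentSub (NonUnitalAlgebra.adjoin F s)

/-- `P` is a two-sided ideal of the subalgebra `X`. -/
def IsIdealOf (P X : NonUnitalSubalgebra F E) : Prop :=
  P ≤ X ∧ ∀ p ∈ P, ∀ x ∈ X, p * x ∈ P ∧ x * p ∈ P

/-- The locally nilpotent radical of the associative algebra `X` (given as a subalgebra, without
identity, of `E`): the sum of all its locally nilpotent two-sided ideals. -/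
def assocRadical (X : NonUnitalSubalgebra F E) : Submodule F E :=
  sSup {M : Submodule F E | ∃ P : NonUnitalSubalgebra F E, P.toSubmodule = M ∧
    IsIdealOf P X ∧ LocallyNilpotentSub P}

end

end Pool.Agent.Helper824.Lev
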