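import Mathlib

set_option autoImplicit false
set_option linter.unusedSectionVars false

namespace Pool.Agent.Helper824.Lev

/-- Functions on finite lists of vectors. -/
abbrev Fm (K V : Type) : Type := List V → K

section basic

variable {K V : Type} [Field K] [AddCommGroup V] [Module K V]

/-- Insertion of a vector in the first slot. -/
def ins (v : V) : Fm K V →ₗ[K] Fm K V where
  toFun f := fun l => f (v :: l)
  map_add' _ _ := rfl
  map_smul' _ _ := rfl

theorem ins_apply (v : V) (f : Fm K V) (l : List V) : ins v f l = f (v :: l) := rfl

/-- The underlying function of the derivation. -/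
def derFun (T : V →ₗ[K] V) : List V → Fm K V → K
  | [], _ => 0
  | v :: l, f => f (T v :: l) + derFun T l (ins v f)

theorem derFun_add (T : V →ₗ[K] V) (l : List V) (f g : Fm K V) :
    derFun T l (f + g) = derFun T l f + derFun T l g := by
  induction l generalizing f g with
  | nil => simp [derFun]
  | cons v l ih =>
    simp only [derFun, map_add, ih, Pi.add_apply]
    ring

theorem derFun_smul (T : V →ₗ[K] V) (l : List V) (c : K) (f : Fm K V) :
    derFun T l (c • f) = c * derFun T l f := by
  induction l generalizing f with
  | nil => simp [derFun]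
  | cons v l ih =>
    simp only [derFun, map_smul, ih, Pi.smul_apply, smul_eq_mul]
    ring

/-- The action of an endomorphism by derivations. -/
def der (T : V →ₗ[K] V) : Fm K V →ₗ[K] Fm K V where
  toFun f := fun l => derFun T l f
  map_add' f g := by funext l; exact derFun_add T l f g
  map_smul' c f := by funext l; exact derFun_smul T l c f

theorem der_nil (T : V →ₗ[K] V) (f : Fm K V) : der T f [] = 0 := rfl

theorem der_cons (T : V →ₗ[K] V) (f : Fm K V) (v : V) (l : List V) :
    der T f (v :: l) = f (T v :: l) + der T (ins v f) l := rfl

theorem ins_der (T : V →ₗ[K] V) (f : Fm K V) (v : V) :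
    ins v (der T f) = ins (T v) f + der T (ins v f) := rfl

/-- Multilinear. -/
structure ML (f : Fm K V) : Prop where
  add : ∀ (l : List V) (k : ℕ) (x y : V), k < l.length →
    f (l.set k (x + y)) = f (l.set k x) + f (l.set k y)
  smul : ∀ (l : List V) (k : ℕ) (c : K) (x : V), k < l.length →
    f (l.set k (c • x)) = c * f (l.set k x)

/-- Supported on lists of length `n`. -/
def Supp (n : ℕ) (f : Fm K V) : Prop := ∀ l : List V, l.length ≠ n → f l = 0

theorem ML.zero : ML (0 : Fm K V) := ⟨by simp, by simp⟩

theorem ML.of_add {f g : Fm K V} (hf : ML f) (hg : ML g) : ML (f + g) := by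
  refine ⟨fun l k x y h => ?_, fun l k c x h => ?_⟩
  · simp only [Pi.add_apply, hf.add l k x y h, hg.add l k x y h]; ring
  · simp only [Pi.add_apply, hf.smul l k c x h, hg.smul l k c x h]; ring

theorem ML.of_smul {f : Fm K V} (hf : ML f) (a : K) : ML (a • f) := by
  refine ⟨fun l k x y h => ?_, fun l k c x h => ?_⟩
  · simp only [Pi.smul_apply, hf.add l k x y h, smul_eq_mul]; ring
  · simp only [Pi.smul_apply, hf.smul l k c x h, smul_eq_mul]; ring

theorem ML.ins {f : Fm K V} (hf : ML f) (v : V) : ML (ins v f) := by
  refine ⟨fun l k x y h => ?_, fun l k c x h => ?_⟩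
  · exact hf.add (v :: l) (k + 1) x y (by simpa using h)
  · exact hf.smul (v :: l) (k + 1) c x (by simpa using h)

theorem ML.add0 {f : Fm K V} (hf : ML f) (l : List V) (x y : V) :
    f ((x + y) :: l) = f (x :: l) + f (y :: l) := hf.add (0 :: l) 0 x y (by simp)

theorem ML.smul0 {f : Fm K V} (hf : ML f) (l : List V) (c : K) (x : V) :
    f ((c • x) :: l) = c * f (x :: l) := hf.smul (0 :: l) 0 c x (by simp)

theorem ML.ins_add {f : Fm K V} (hf : ML f) (x y : V) :
    Lev.ins (x + y) f = Lev.ins x f + Lev.ins y f := by
  funext l; exact hf.add0 l x y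

theorem ML.ins_smul {f : Fm K V} (hf : ML f) (c : K) (x : V) :
    Lev.ins (c • x) f = c • Lev.ins x f := by
  funext l; exact hf.smul0 l c x

theorem ML.ins_zero {f : Fm K V} (hf : ML f) : Lev.ins 0 f = 0 := by
  have := hf.ins_smul 0 (0 : V)
  rwa [zero_smul, zero_smul] at this

theorem ML.der {f : Fm K V} (hf : ML f) (T : V →ₗ[K] V) : ML (der T f) := by
  constructor
  · intro l
    induction l generalizing f with
    | nil => intro k x y h; simp at h
    | cons v l ih =>
      intro k x y h
      rcases k with _ | k
      · simp only [List.set_cons_zero, der_cons, map_add, hf.add0, hf.ins_add, Pi.add_apply]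
        ring
      · have h' : k < l.length := by simpa using h
        simp only [List.set_cons_succ, der_cons]
        rw [ih (hf.ins v) k x y h']
        have := (hf.ins (T v)).add l k x y h'
        simp only [ins_apply] at this
        rw [this]
        ring
  · intro l
    induction l generalizing f with
    | nil => intro k c x h; simp at h
    | cons v l ih =>
      intro k c x h
      rcases k with _ | k
      · simp only [List.set_cons_zero, der_cons, map_smul, hf.smul0, hf.ins_smul, Pi.smul_apply,
          smul_eq_mul]
        ring
      · have h' : k < l.length := by simpa using h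
        simp only [List.set_cons_succ, der_cons]
        rw [ih (hf.ins v) k c x h']
        have := (hf.ins (T v)).smul l k c x h'
        simp only [ins_apply] at this
        rw [this]
        ring

theorem Supp.ins {n : ℕ} {f : Fm K V} (hf : Supp (n + 1) f) (v : V) : Supp n (ins v f) := by
  intro l hl
  exact hf _ (by simpa using hl)

theorem Supp.ins_zero {f : Fm K V} (hf : Supp 0 f) (v : V) : Lev.ins v f = 0 := by
  funext l
  exact hf _ (by simp)

theorem Supp.der {n : ℕ} {f : Fm K V} (hf : Supp n f) (T : V →ₗ[K] V) : Supp n (der T f) := by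
  intro l hl
  induction l generalizing n f with
  | nil => rfl
  | cons v l ih =>
    rw [der_cons, hf _ (by simpa using hl), zero_add]
    rcases n with _ | n
    · rw [hf.ins_zero, map_zero]; rfl
    · exact ih (hf.ins v) (by simpa using hl)

theorem der_add {f : Fm K V} (hf : ML f) (S T : V →ₗ[K] V) :
    der (S + T) f = der S f + der T f := by
  funext l
  induction l generalizing f with
  | nil => simp [der_nil]
  | cons v l ih =>
    rw [Pi.add_apply, der_cons, der_cons, der_cons, ih (hf.ins v), LinearMap.add_apply, hf.add0,
      Pi.add_apply]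
    ring

theorem der_smul {f : Fm K V} (hf : ML f) (c : K) (T : V →ₗ[K] V) :
    der (c • T) f = c • der T f := by
  funext l
  induction l generalizing f with
  | nil => simp [der_nil]
  | cons v l ih =>
    rw [Pi.smul_apply, der_cons, der_cons, ih (hf.ins v), LinearMap.smul_apply, hf.smul0,
      Pi.smul_apply]
    simp only [smul_eq_mul]
    ring

theorem der_comm {f : Fm K V} (hf : ML f) (S T : V →ₗ[K] V) :
    der S (der T f) - der T (der S f) = der (T ∘ₗ S - S ∘ₗ T) f := by
  funext l
  induction l generalizing f with
  | nil => simp [der_nil]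
  | cons v l ih =>
    have h1 := ih (hf.ins v)
    simp only [Pi.sub_apply] at h1 ⊢
    have h2 : f ((T ∘ₗ S - S ∘ₗ T) v :: l) = f (T (S v) :: l) - f (S (T v) :: l) := by
      have h3 := hf.add0 l (T (S v) - S (T v)) (S (T v))
      rw [sub_add_cancel] at h3
      have h4 : (T ∘ₗ S - S ∘ₗ T) v = T (S v) - S (T v) := rfl
      rw [h4, h3]; ring
    rw [der_cons (T ∘ₗ S - S ∘ₗ T) f, der_cons S (der T f), der_cons T (der S f), ins_der, ins_der,
      map_add, map_add, h2, ← h1, der_cons, der_cons]
    simp only [Pi.add_apply]
    ring

/-- Local nilpotency. -/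
theorem der_pow_eq_zero (T : V →ₗ[K] V) (r : ℕ) (hT : T ^ r = 0) (n : ℕ) :
    ∃ s, ∀ f : Fm K V, ML f → Supp n f → ((der T) ^ s) f = 0 := by
  have hML : ∀ (b : ℕ) (f : Fm K V), ML f → ML (((der T) ^ b) f) := by
    intro b
    induction b with
    | zero => intro f hf; exact hf
    | succ b ih => intro f hf; rw [pow_succ']; exact (ih f hf).der T
  induction n with
  | zero =>
    refine ⟨1, fun f _ hs => ?_⟩
    rw [pow_one]
    funext l
    cases l with
    | nil => rfl
    | cons v l => exact hs.der T _ (by simp)
  | succ n ih =>
    obtain ⟨s, hs⟩ := ih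
    have key : ∀ (b a k : ℕ) (v : V) (f : Fm K V), ML f → Supp (n + 1) f → (T ^ k) v = 0 →
        s + k ≤ a + b → ((der T) ^ a) (ins v (((der T) ^ b) f)) = 0 := by
      intro b
      induction b with
      | zero =>
        intro a k v f hf hsf _ hab
        have h1 := hs (ins v f) (hf.ins v) (hsf.ins v)
        obtain ⟨c, rfl⟩ : ∃ c, a = c + s := ⟨a - s, by omega⟩
        rw [pow_zero, Module.End.one_apply, pow_add, Module.End.mul_apply, h1, map_zero]
      | succ b ihb =>
        intro a k v f hf hsf hv hab
        rcases k with _ | k
        · rw [pow_zero, Module.End.one_apply] at hv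
          subst hv
          rw [(hML _ _ hf).ins_zero, map_zero]
        · rw [pow_succ', Module.End.mul_apply, ins_der, map_add]
          rw [ihb a k (T v) f hf hsf (by rw [← Module.End.mul_apply, ← pow_succ]; exact hv)
            (by omega), zero_add]
          have := ihb (a + 1) (k + 1) v f hf hsf hv (by omega)
          rwa [pow_succ, Module.End.mul_apply] at this
    refine ⟨s + r, fun f hf hsf => ?_⟩
    funext l
    cases l with
    | nil =>
      have : ∀ b, Supp (n + 1) (((der T) ^ b) f) := by
        intro b
        induction b with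
        | zero => exact hsf
        | succ b ih => rw [pow_succ']; exact ih.der T
      exact this _ _ (by simp)
    | cons v l =>
      have := key (s + r) 0 r v f hf hsf (by rw [hT]; rfl) (by omega)
      exact congrFun this l

end basic

end Pool.Agent.Helper824.Lev
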