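import Pool.Agent.Helper824.Lev.Nil
import Pool.Agent.Helper824.Lev.Defs

set_option autoImplicit false
set_option linter.unusedSectionVars false

namespace Pool.Agent.Helper824.Lev

variable {K E : Type} [Field K] [Ring E] [Algebra K E]

/-- Locally nilpotent ideals of a subalgebra, seen in the big algebra. -/
structure IsLN (X : NonUnitalSubalgebra K E) (P : Submodule K E) : Prop where
  le : ∀ p ∈ P, p ∈ X
  left : ∀ p ∈ P, ∀ y ∈ X, y * p ∈ P
  right : ∀ p ∈ P, ∀ y ∈ X, p * y ∈ P
  nil : ∀ s : Set E, s.Finite → s ⊆ P → ∃ N, NP s N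

theorem NP.of_products {s : Set E} {N M : ℕ}
    (h : NP {x | ∃ l : List E, l.length = N ∧ (∀ y ∈ l, y ∈ s) ∧ x = l.prod} M) :
    NP s (N * M) := by
  intro l hl hs
  have key : ∀ (M : ℕ) (l : List E), l.length = N * M → (∀ y ∈ l, y ∈ s) →
      ∃ L : List E, L.length = M ∧
        (∀ x ∈ L, ∃ l : List E, l.length = N ∧ (∀ y ∈ l, y ∈ s) ∧ x = l.prod) ∧ L.prod = l.prod := by
    intro M
    induction M with
    | zero =>
      intro l hl _
      refine ⟨[], rfl, by simp, ?_⟩
      rw [mul_zero, List.length_eq_zero_iff] at hl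
      rw [hl]
    | succ M ih =>
      intro l hl hs
      obtain ⟨L, h1, h2, h3⟩ := ih (l.drop N)
        (by rw [List.length_drop, hl, mul_add, mul_one]; omega)
        (fun y hy => hs y (List.mem_of_mem_drop hy))
      refine ⟨(l.take N).prod :: L, by rw [List.length_cons, h1], ?_, ?_⟩
      · intro x hx
        rcases List.mem_cons.mp hx with rfl | hx
        · refine ⟨l.take N, ?_, fun y hy => hs y (List.mem_of_mem_take hy), rfl⟩
          rw [List.length_take, hl, mul_add, mul_one]
          omega
        · exact h2 x hx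
      · rw [List.prod_cons, h3, List.prod_take_mul_prod_drop]
  obtain ⟨L, h1, h2, h3⟩ := key M l hl hs
  rw [← h3]
  exact h L h1 h2

theorem IsLN.sup {X : NonUnitalSubalgebra K E} {P Q : Submodule K E} (hP : IsLN X P)
    (hQ : IsLN X Q) : IsLN X (P ⊔ Q) := by
  classical
  refine ⟨?_, ?_, ?_, ?_⟩
  · intro p hp
    obtain ⟨a, ha, b, hb, rfl⟩ := Submodule.mem_sup.mp hp
    exact add_mem (hP.le a ha) (hQ.le b hb)
  · intro p hp y hy
    obtain ⟨a, ha, b, hb, rfl⟩ := Submodule.mem_sup.mp hp
    rw [mul_add]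
    exact Submodule.add_mem_sup (hP.left a ha y hy) (hQ.left b hb y hy)
  · intro p hp y hy
    obtain ⟨a, ha, b, hb, rfl⟩ := Submodule.mem_sup.mp hp
    rw [add_mul]
    exact Submodule.add_mem_sup (hP.right a ha y hy) (hQ.right b hb y hy)
  · intro s hs hsub
    have h1 : ∀ y ∈ s, ∃ a ∈ P, y - a ∈ Q := by
      intro y hy
      obtain ⟨a, ha, b, hb, hab⟩ := Submodule.mem_sup.mp (hsub hy)
      refine ⟨a, ha, ?_⟩
      rw [← hab, add_sub_cancel_left]; exact hb
    have h2 : ∃ f : E → E, ∀ y ∈ s, f y ∈ P ∧ y - f y ∈ Q := by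
      refine ⟨fun y => if h : y ∈ s then (h1 y h).choose else 0, fun y hy => ?_⟩
      simp only [hy, dif_pos]
      exact (h1 y hy).choose_spec
    obtain ⟨f, hf⟩ := h2
    obtain ⟨N, hN⟩ := hP.nil (f '' s) (hs.image f) (by
      rintro _ ⟨y, hy, rfl⟩
      exact (hf y hy).1)
    have hX : ∀ y ∈ s, y ∈ X := by
      intro y hy
      have e : y = f y + (y - f y) := by abel
      rw [e]
      exact add_mem (hP.le _ (hf y hy).1) (hQ.le _ (hf y hy).2)
    have h3 : ∀ l : List E, (∀ y ∈ l, y ∈ s) → ∀ b ∈ Q, b * l.prod ∈ Q := by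
      intro l
      induction l with
      | nil => intro _ b hb; rw [List.prod_nil, mul_one]; exact hb
      | cons y l ih =>
        intro hl b hb
        rw [List.prod_cons, ← mul_assoc]
        exact ih (fun z hz => hl z (List.mem_cons_of_mem _ hz)) _
          (hQ.right b hb y (hX y (hl y List.mem_cons_self)))
    have h4 : ∀ l : List E, (∀ y ∈ l, y ∈ s) → l.prod - (l.map f).prod ∈ Q := by
      intro l
      induction l with
      | nil => intro _; simp
      | cons y l ih =>
        intro hl
        have hy := hl y List.mem_cons_self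
        have hl' := fun z hz => hl z (List.mem_cons_of_mem _ hz)
        rw [List.prod_cons, List.map_cons, List.prod_cons]
        have e : y * l.prod - f y * (l.map f).prod =
            (y - f y) * l.prod + f y * (l.prod - (l.map f).prod) := by noncomm_ring
        rw [e]
        exact add_mem (h3 l hl' _ (hf y hy).2) (hQ.left _ (ih hl') _ (hP.le _ (hf y hy).1))
    have hfin : {x | ∃ l : List E, l.length = N ∧ (∀ y ∈ l, y ∈ s) ∧ x = l.prod}.Finite := by
      have : Finite s := hs
      have h5 := (List.finite_length_eq s N).image (fun l : List s => (l.map Subtype.val).prod)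
      apply h5.subset
      rintro x ⟨l, h6, h7, rfl⟩
      refine ⟨l.attachWith (· ∈ s) h7, ?_, ?_⟩
      · change (l.attachWith (· ∈ s) h7).length = N
        rw [List.length_attachWith, h6]
      · exact congrArg List.prod (List.attachWith_map_subtype_val h7)
    obtain ⟨M, hM⟩ := hQ.nil _ hfin (by
      rintro x ⟨l, h6, h7, rfl⟩
      have h8 := h4 l h7
      rw [hN (l.map f) (by rw [List.length_map, h6]) (by
        intro z hz
        rw [List.mem_map] at hz
        obtain ⟨y, hy, rfl⟩ := hz
        exact ⟨y, h7 y hy, rfl⟩), sub_zero] at h8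
      exact h8)
    exact ⟨N * M, NP.of_products hM⟩

/-- An element of the locally nilpotent radical lies in a locally nilpotent ideal. -/
theorem exists_isLN (X : NonUnitalSubalgebra K E) (u : E) (hu : u ∈ assocRadical X) :
    ∃ P, IsLN X P ∧ u ∈ P := by
  have hle : assocRadical X ≤ sSup {P | IsLN X P} := by
    apply sSup_le
    rintro _ ⟨P, rfl, h1, h2⟩
    apply le_sSup
    refine ⟨fun p hp => h1.1 hp, fun p hp y hy => (h1.2 p hp y hy).2,
      fun p hp y hy => (h1.2 p hp y hy).1, fun s hs hsub => ?_⟩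
    obtain ⟨n, -, hn⟩ := h2 s hs hsub
    exact ⟨n, fun l hl hls => hn l hl (fun x hx => NonUnitalAlgebra.subset_adjoin K (hls x hx))⟩
  have h1 : u ∈ sSup {P | IsLN X P} := hle hu
  rw [Submodule.mem_sSup_of_directed] at h1
  · exact h1
  · refine ⟨⊥, ?_, ?_, ?_, ?_⟩
    · intro p hp
      rw [Submodule.mem_bot] at hp
      rw [hp]; exact zero_mem _
    · intro p hp y _
      rw [Submodule.mem_bot] at hp ⊢
      rw [hp, mul_zero]
    · intro p hp y _
      rw [Submodule.mem_bot] at hp ⊢
      rw [hp, zero_mul]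
    · intro s _ hs
      refine ⟨1, fun l hl hls => ?_⟩
      obtain ⟨x, rfl⟩ := List.length_eq_one_iff.mp hl
      have := hs (hls x (by simp))
      simpa using this
  · intro P hP Q hQ
    exact ⟨P ⊔ Q, hP.sup hQ, le_sup_left, le_sup_right⟩

end Pool.Agent.Helper824.Lev
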