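import Pool.Agent.Helper824.Lev.Alt

set_option autoImplicit false
set_option linter.unusedSectionVars false

namespace Pool.Agent.Helper824.Lev

variable {K V ι : Type} [Field K] [AddCommGroup V] [Module K V]

section words

variable (T : ι → V →ₗ[K] V) (e : V)

/-- The operator attached to a symbol. -/
def op : Option ι → (Fm K V →ₗ[K] Fm K V)
  | none => ins e
  | some x => der (T x)

/-- The operator attached to a word; the head of the list acts first. -/
def act : List (Option ι) → (Fm K V →ₗ[K] Fm K V)
  | [] => LinearMap.id
  | o :: Q => act Q ∘ₗ op T e o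

/-- number of insertions -/
def nn : List (Option ι) → ℕ
  | [] => 0
  | none :: Q => nn Q + 1
  | some _ :: Q => nn Q

/-- number of letters -/
def ln : List (Option ι) → ℕ
  | [] => 0
  | none :: Q => ln Q
  | some _ :: Q => ln Q + 1

theorem act_nil (f : Fm K V) : act T e [] f = f := rfl
theorem act_none (Q : List (Option ι)) (f : Fm K V) :
    act T e (none :: Q) f = act T e Q (ins e f) := rfl
theorem act_some (x : ι) (Q : List (Option ι)) (f : Fm K V) :
    act T e (some x :: Q) f = act T e Q (der (T x) f) := rfl
theorem act_cons (o : Option ι) (Q : List (Option ι)) (f : Fm K V) :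
    act T e (o :: Q) f = act T e Q (op T e o f) := rfl

theorem act_append (P Q : List (Option ι)) (f : Fm K V) :
    act T e (P ++ Q) f = act T e Q (act T e P f) := by
  induction P generalizing f with
  | nil => rfl
  | cons o P ih => rw [List.cons_append, act_cons, ih, act_cons]

theorem nn_append (P Q : List (Option ι)) : nn (P ++ Q) = nn P + nn Q := by
  induction P with
  | nil => simp [nn]
  | cons o P ih => cases o <;> simp only [List.cons_append, nn, ih]; omega

theorem ln_append (P Q : List (Option ι)) : ln (P ++ Q) = ln P + ln Q := by
  induction P with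
  | nil => simp [ln]
  | cons o P ih => cases o <;> simp only [List.cons_append, ln, ih]; omega

theorem Supp.act {s : ℕ} {f : Fm K V} (Q : List (Option ι)) (hf : Supp (s + nn Q) f) :
    Supp s (act T e Q f) := by
  induction Q generalizing f with
  | nil => exact hf
  | cons o Q ih =>
    cases o with
    | none => exact ih (Supp.ins hf e)
    | some x => exact ih (Supp.der hf (T x))

/-- The words with less than `d` letters kill `φ`. -/
def LB (φ : Fm K V) (s d : ℕ) : Prop :=
  ∀ Q : List (Option ι), nn Q = s → ln Q < d → act T e Q φ = 0

variable {T e}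

theorem LB.der {φ : Fm K V} {s d : ℕ} (h : LB T e φ s d) (x : ι) :
    LB T e (Lev.der (T x) φ) s (d - 1) :=
  fun Q h1 h2 => h (some x :: Q) h1 (by simp only [ln]; omega)

theorem LB.ins {φ : Fm K V} {s d : ℕ} (h : LB T e φ (s + 1) d) : LB T e (Lev.ins e φ) s d :=
  fun Q h1 h2 => h (none :: Q) (by simp only [nn]; omega) h2

/-- Concatenation. -/
def cat (s : ℕ) (φ : Fm K V) : Fm K V →ₗ[K] Fm K V where
  toFun ψ := fun l => φ (l.take s) * ψ (l.drop s)
  map_add' ψ ψ' := by funext l; simp [mul_add]
  map_smul' c ψ := by funext l; simp only [Pi.smul_apply, smul_eq_mul, RingHom.id_apply]; ring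

theorem cat_apply (s : ℕ) (φ ψ : Fm K V) (l : List V) :
    cat s φ ψ l = φ (l.take s) * ψ (l.drop s) := rfl

theorem cat_zero (φ ψ : Fm K V) : cat 0 φ ψ = φ [] • ψ := by
  funext l
  simp [cat_apply]

theorem ins_cat (s : ℕ) (φ ψ : Fm K V) (v : V) :
    Lev.ins v (cat (s + 1) φ ψ) = cat s (Lev.ins v φ) ψ := rfl

theorem cat_zero_left (s : ℕ) (ψ : Fm K V) : cat s 0 ψ = 0 := by
  funext l
  simp [cat_apply]

theorem der_cat (s : ℕ) (φ ψ : Fm K V) (S : V →ₗ[K] V) :
    Lev.der S (cat s φ ψ) = cat s (Lev.der S φ) ψ + cat s φ (Lev.der S ψ) := by
  funext l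
  induction s generalizing φ l with
  | zero =>
    rw [cat_zero, cat_zero, cat_zero, map_smul, der_nil, zero_smul, zero_add]
  | succ s ih =>
    cases l with
    | nil => simp [der_nil, cat_apply]
    | cons v l =>
      rw [der_cons, ins_cat, ih]
      simp only [Pi.add_apply, cat_apply, List.take_succ_cons, List.drop_succ_cons, der_cons]
      simp only [ins_apply]
      ring

theorem act_cat (φ ψ : Fm K V) (s d : ℕ) (P : List (Option ι)) (h : LB T e φ s d)
    (hs : nn P = s) (hd : ln P ≤ d) : act T e P (cat s φ ψ) = act T e P φ [] • ψ := by
  induction P generalizing φ ψ s d with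
  | nil =>
    simp only [nn] at hs
    subst hs
    rw [act_nil, act_nil, cat_zero]
  | cons o P ih =>
    cases o with
    | none =>
      simp only [nn] at hs
      subst hs
      rw [act_none, ins_cat, ih _ _ _ _ h.ins rfl hd]
      rfl
    | some x =>
      simp only [nn] at hs
      simp only [ln] at hd
      rw [act_some, der_cat, map_add, ih _ _ _ _ (h.der x) hs (by omega), ih _ _ _ _ h hs (by omega),
        h P hs (by omega), Pi.zero_apply, zero_smul, add_zero]
      rfl

theorem LB.cat {φ ψ : Fm K V} {s t d d' : ℕ} (h : LB T e φ s d) (h' : LB T e ψ t d') :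
    LB T e (cat s φ ψ) (s + t) (d + d') := by
  intro Q hs hd
  induction Q generalizing φ ψ s d d' with
  | nil =>
    simp only [nn] at hs
    obtain ⟨rfl, rfl⟩ : s = 0 ∧ t = 0 := by omega
    rw [cat_zero]
    rcases d with _ | d
    · have := h' [] rfl (by omega)
      rw [act_nil] at this
      rw [this, smul_zero, map_zero]
    · have := h [] rfl (by simp [ln])
      rw [act_nil] at this
      rw [this, Pi.zero_apply, zero_smul, map_zero]
  | cons o Q ih =>
    rcases s with _ | s
    · rw [cat_zero, map_smul]
      rcases d with _ | d
      · rw [h' (o :: Q) (by omega) (by omega), smul_zero]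
      · have := h [] rfl (by simp [ln])
        rw [act_nil] at this
        rw [this, Pi.zero_apply, zero_smul]
    · cases o with
      | none =>
        simp only [nn] at hs
        simp only [ln] at hd
        rw [act_none, ins_cat]
        exact ih h.ins h' (by omega) hd
      | some x =>
        simp only [nn] at hs
        simp only [ln] at hd
        rw [act_some, der_cat, map_add, ih (h.der x) h' hs (by omega),
          ih h (h'.der x) hs (by omega), add_zero]

theorem ML.cat {φ ψ : Fm K V} (hφ : ML φ) (hψ : ML ψ) (s : ℕ) : ML (cat s φ ψ) := by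
  have e1 : ∀ (l : List V) (k : ℕ) (z : V), k < s → (l.set k z).drop s = l.drop s := by
    intro l k z hk
    rw [List.drop_set, if_pos hk]
  have e2 : ∀ (l : List V) (k : ℕ) (z : V), s ≤ k → (l.set k z).take s = l.take s := by
    intro l k z hk
    rw [List.take_set, List.set_eq_of_length_le (by rw [List.length_take]; omega)]
  have e3 : ∀ (l : List V) (k : ℕ) (z : V), s ≤ k → (l.set k z).drop s = (l.drop s).set (k - s) z := by
    intro l k z hk
    rw [List.drop_set, if_neg (by omega)]
  refine ⟨fun l k x y h => ?_, fun l k c x h => ?_⟩
  · simp only [cat_apply]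
    by_cases hk : k < s
    · rw [e1 _ _ _ hk, e1 _ _ _ hk, e1 _ _ _ hk, List.take_set, List.take_set, List.take_set,
        hφ.add _ _ _ _ (by rw [List.length_take]; omega)]
      ring
    · rw [e2 _ _ _ (by omega), e2 _ _ _ (by omega), e2 _ _ _ (by omega), e3 _ _ _ (by omega),
        e3 _ _ _ (by omega), e3 _ _ _ (by omega), hψ.add _ _ _ _ (by rw [List.length_drop]; omega)]
      ring
  · simp only [cat_apply]
    by_cases hk : k < s
    · rw [e1 _ _ _ hk, e1 _ _ _ hk, List.take_set, List.take_set,
        hφ.smul _ _ _ _ (by rw [List.length_take]; omega)]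
      ring
    · rw [e2 _ _ _ (by omega), e2 _ _ _ (by omega), e3 _ _ _ (by omega),
        e3 _ _ _ (by omega), hψ.smul _ _ _ _ (by rw [List.length_drop]; omega)]
      ring

theorem Supp.cat {φ ψ : Fm K V} {s t : ℕ} (hφ : Supp s φ) (hψ : Supp t ψ) :
    Supp (s + t) (cat s φ ψ) := by
  intro l hl
  rw [cat_apply]
  by_cases h : l.length < s
  · rw [hφ _ (by rw [List.length_take]; omega), zero_mul]
  · rw [hψ _ (by rw [List.length_drop]; omega), mul_zero]

/-- The nested form. -/
def J (s : ℕ) (Φ : Fm K V) : List (Option ι) → (Fm K V →ₗ[K] Fm K V)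
  | [] => LinearMap.id
  | some _ :: Q => Lev.cat s Φ ∘ₗ J s Φ Q
  | none :: Q =>
    { toFun := fun δ l => match l with
        | [] => 0
        | v :: l' => Lev.cat s Φ (J s Φ Q (Lev.ins v δ)) l'
      map_add' := by
        intro δ δ'
        funext l
        cases l with
        | nil => simp
        | cons v l => simp [map_add]
      map_smul' := by
        intro c δ
        funext l
        cases l with
        | nil => simp
        | cons v l => simp [map_smul] }

theorem J_nil (s : ℕ) (Φ δ : Fm K V) : J (ι := ι) s Φ [] δ = δ := rfl
theorem J_some (s : ℕ) (Φ δ : Fm K V) (x : ι) (Q : List (Option ι)) :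
    J s Φ (some x :: Q) δ = cat s Φ (J s Φ Q δ) := rfl
theorem J_none_nil (s : ℕ) (Φ δ : Fm K V) (Q : List (Option ι)) :
    J s Φ (none :: Q) δ [] = 0 := rfl
theorem J_none_cons (s : ℕ) (Φ δ : Fm K V) (Q : List (Option ι)) (v : V) (l : List V) :
    J s Φ (none :: Q) δ (v :: l) = cat s Φ (J s Φ Q (ins v δ)) l := rfl
theorem ins_J_none (s : ℕ) (Φ δ : Fm K V) (Q : List (Option ι)) (v : V) :
    ins v (J s Φ (none :: Q) δ) = cat s Φ (J s Φ Q (ins v δ)) := rfl

theorem der_J (s : ℕ) {Φ : Fm K V} {S : V →ₗ[K] V} (hΦ : der S Φ = 0) (Q : List (Option ι))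
    (δ : Fm K V) : der S (J s Φ Q δ) = J s Φ Q (der S δ) := by
  induction Q generalizing δ with
  | nil => rfl
  | cons o Q ih =>
    cases o with
    | some x => rw [J_some, J_some, der_cat, hΦ, cat_zero_left, zero_add, ih]
    | none =>
      funext l
      cases l with
      | nil => rfl
      | cons v l =>
        rw [der_cons, J_none_cons, J_none_cons, ins_J_none, der_cat, hΦ, cat_zero_left, zero_add,
          ih, ins_der, map_add, map_add, Pi.add_apply]

theorem ML.J {Φ : Fm K V} (hΦ : ML Φ) (s : ℕ) (Q : List (Option ι)) {δ : Fm K V} (hδ : ML δ) :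
    ML (J s Φ Q δ) := by
  induction Q generalizing δ with
  | nil => exact hδ
  | cons o Q ih =>
    cases o with
    | some x => exact hΦ.cat (ih hδ) s
    | none =>
      refine ⟨fun l k x y h => ?_, fun l k c x h => ?_⟩
      · cases l with
        | nil => simp at h
        | cons v l =>
          rcases k with _ | k
          · simp only [List.set_cons_zero, J_none_cons, hδ.ins_add, map_add, Pi.add_apply]
          · simp only [List.set_cons_succ, J_none_cons]
            exact (hΦ.cat (ih (hδ.ins v)) s).add _ _ _ _ (by simpa using h)
      · cases l with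
        | nil => simp at h
        | cons v l =>
          rcases k with _ | k
          · simp only [List.set_cons_zero, J_none_cons, hδ.ins_smul, map_smul, Pi.smul_apply,
              smul_eq_mul]
          · simp only [List.set_cons_succ, J_none_cons]
            exact (hΦ.cat (ih (hδ.ins v)) s).smul _ _ _ _ (by simpa using h)

theorem Supp.J {s : ℕ} {Φ : Fm K V} (hΦ : Supp s Φ) (Q : List (Option ι)) {δ : Fm K V}
    (hδ : Supp (nn Q) δ) : Supp (nn Q + Q.length * s) (J s Φ Q δ) := by
  induction Q generalizing δ with
  | nil => rw [J_nil]; simpa using hδ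
  | cons o Q ih =>
    cases o with
    | some x =>
      have := hΦ.cat (ih hδ)
      rw [J_some]
      have e : nn (some x :: Q) + (some x :: Q).length * s = s + (nn Q + Q.length * s) := by
        simp only [nn, List.length_cons]; ring
      rw [e]; exact this
    | none =>
      intro l hl
      cases l with
      | nil => rfl
      | cons v l =>
        rw [J_none_cons]
        have := hΦ.cat (ih (hδ.ins v))
        apply this
        simp only [nn, List.length_cons] at hl
        intro h
        apply hl
        rw [h]; ring

theorem LB.J {s d' : ℕ} {Φ : Fm K V} (hΦ : LB T e Φ s d') (hinv : ∀ x, Lev.der (T x) Φ = 0)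
    (Q : List (Option ι)) {δ : Fm K V} {d : ℕ} (hδ : LB T e δ (nn Q) d) :
    LB T e (J s Φ Q δ) (nn Q + Q.length * s) (Q.length * d' + d) := by
  induction Q generalizing δ d with
  | nil => rw [J_nil]; simpa using hδ
  | cons o Q ih =>
    cases o with
    | some x =>
      have := hΦ.cat (ih hδ)
      rw [J_some]
      have e1 : nn (some x :: Q) + (some x :: Q).length * s = s + (nn Q + Q.length * s) := by
        simp only [nn, List.length_cons]; ring
      have e2 : (some x :: Q).length * d' + d = d' + (Q.length * d' + d) := by
        simp only [List.length_cons]; ring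
      rw [e1, e2]; exact this
    | none =>
      intro P hs hd
      induction P generalizing δ d with
      | nil =>
        simp only [nn] at hs
        omega
      | cons o P ihP =>
        cases o with
        | none =>
          rw [act_none, ins_J_none]
          have h1 := hΦ.cat (ih (δ := Lev.ins e δ) hδ.ins)
          apply h1 P
          · simp only [nn, List.length_cons] at hs
            have : nn P + 1 = nn Q + 1 + (Q.length + 1) * s := hs
            have e3 : (Q.length + 1) * s = Q.length * s + s := by ring
            omega
          · simp only [ln, List.length_cons] at hd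
            have e3 : (Q.length + 1) * d' = Q.length * d' + d' := by ring
            omega
        | some x =>
          rw [act_some, der_J s (hinv x)]
          apply ihP (d := d - 1) (hδ.der x)
          · exact hs
          · simp only [ln] at hd
            omega

/-- The word attached to the nested form. -/
def expand (P : List (Option ι)) : List (Option ι) → List (Option ι)
  | [] => []
  | o :: Q => o :: (P ++ expand P Q)

theorem nn_expand (P Q : List (Option ι)) : nn (expand P Q) = nn Q + Q.length * nn P := by
  induction Q with
  | nil => simp [expand, nn]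
  | cons o Q ih => cases o <;> simp only [expand, nn, nn_append, ih, List.length_cons] <;> ring

theorem ln_expand (P Q : List (Option ι)) : ln (expand P Q) = Q.length * ln P + ln Q := by
  induction Q with
  | nil => simp [expand, ln]
  | cons o Q ih => cases o <;> simp only [expand, ln, ln_append, ih, List.length_cons] <;> ring

theorem act_J {Φ : Fm K V} {P : List (Option ι)} (hΦ : LB T e Φ (nn P) (ln P))
    (hinv : ∀ x, der (T x) Φ = 0) (Q : List (Option ι)) (δ : Fm K V) :
    act T e (expand P Q) (J (nn P) Φ Q δ) = (act T e P Φ []) ^ Q.length • act T e Q δ := by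
  induction Q generalizing δ with
  | nil => simp [expand, act_nil, J_nil]
  | cons o Q ih =>
    cases o with
    | none =>
      rw [expand, act_none, act_append, ins_J_none, act_cat _ _ _ _ P hΦ rfl le_rfl, map_smul, ih,
        smul_smul, List.length_cons, pow_succ', act_none]
    | some x =>
      rw [expand, act_some, act_append, der_J _ (hinv x), J_some, act_cat _ _ _ _ P hΦ rfl le_rfl,
        map_smul, ih, smul_smul, List.length_cons, pow_succ', act_some]

/-- Words in which each letter is followed by an insertion. -/
inductive Blk : List (Option ι) → Prop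
  | nil : Blk []
  | none {Q} : Blk Q → Blk (none :: Q)
  | some {Q} (x : ι) : Blk Q → Blk (some x :: none :: Q)

theorem Blk.append {P Q : List (Option ι)} (hP : Blk P) (hQ : Blk Q) : Blk (P ++ Q) := by
  induction hP with
  | nil => exact hQ
  | none _ ih => exact Blk.none ih
  | some x _ ih => exact Blk.some x ih

theorem Blk.expand {P Q : List (Option ι)} (hP : Blk P) : Blk (expand (Option.none :: P) Q) := by
  induction Q with
  | nil => exact Blk.nil
  | cons o Q ih =>
    cases o with
    | none => exact Blk.none (Blk.none (hP.append ih))
    | some x => exact Blk.some x (hP.append ih)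

end words

end Pool.Agent.Helper824.Lev
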