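import Pool.Agent.Helper824.Lev.Levitzki
import Pool.Agent.Helper824.Lev.Words

set_option autoImplicit false
set_option linter.unusedSectionVars false

namespace Pool.Agent.Helper824.Lev

attribute [local instance 100] LieRing.ofAssociativeRing

section emb

variable {K M : Type} [Field K] [AddCommGroup M] [Module K M]

/-- The endomorphism `(t, f) ↦ (0, t m)`. -/
def em : M →ₗ[K] Module.End K (K × M) where
  toFun m :=
    { toFun := fun p => (0, p.1 • m)
      map_add' := fun p q => Prod.ext (by simp) (add_smul _ _ _)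
      map_smul' := fun c p => Prod.ext (by simp) (mul_smul _ _ _) }
  map_add' m m' := by
    apply LinearMap.ext; intro p
    exact Prod.ext (add_zero (0 : K)).symm (smul_add _ _ _)
  map_smul' c m := by
    apply LinearMap.ext; intro p
    exact Prod.ext (smul_zero c).symm (smul_comm _ _ _)

/-- The endomorphism `(t, f) ↦ (0, c f)`. -/
def ee : Module.End K M →ₗ[K] Module.End K (K × M) where
  toFun c := 
    { toFun := fun p => (0, c p.2)
      map_add' := fun p q => Prod.ext (by simp) (map_add c _ _)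
      map_smul' := fun a p => Prod.ext (by simp) (map_smul c _ _) }
  map_add' m m' := by
    apply LinearMap.ext; intro p
    exact Prod.ext (add_zero (0 : K)).symm rfl
  map_smul' c m := by
    apply LinearMap.ext; intro p
    exact Prod.ext (smul_zero c).symm rfl

theorem em_apply (m : M) (p : K × M) : em m p = (0, p.1 • m) := rfl
theorem ee_apply (c : Module.End K M) (p : K × M) : ee c p = (0, c p.2) := rfl

theorem em_mul_em (m m' : M) : em (K := K) m * em m' = 0 := by
  apply LinearMap.ext; intro p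
  rw [Module.End.mul_apply, em_apply, em_apply]
  simp

theorem em_mul_ee (m : M) (c : Module.End K M) : em m * ee c = 0 := by
  apply LinearMap.ext; intro p
  rw [Module.End.mul_apply, ee_apply, em_apply]
  simp

theorem ee_mul_em (c : Module.End K M) (m : M) : ee c * em m = em (c m) := by
  apply LinearMap.ext; intro p
  rw [Module.End.mul_apply, em_apply, em_apply, ee_apply, map_smul]

theorem ee_mul_ee (c c' : Module.End K M) : ee c * ee c' = ee (c * c') := rfl

theorem em_inj (m : M) (h : em (K := K) m = 0) : m = 0 := by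
  have := LinearMap.congr_fun h (1, 0)
  rw [em_apply] at this
  simpa using congrArg Prod.snd this

theorem lie_ee_em (c : Module.End K M) (m : M) :
    ⁅ee c, (em m : Module.End K (K × M))⁆ = em (c m) := by
  rw [Ring.lie_def, ee_mul_em, em_mul_ee, sub_zero]

theorem lie_ee_ee (c c' : Module.End K M) : ⁅ee c, ee c'⁆ = ee ⁅c, c'⁆ := by
  rw [Ring.lie_def, Ring.lie_def, ee_mul_ee, ee_mul_ee, map_sub]

end emb

/-- The abstract data. -/
structure AData (K B M : Type) [Field K] [Ring B] [Algebra K B] [AddCommGroup M] [Module K M] where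
  D : B →ₗ[K] Module.End K M
  I : B →ₗ[K] Module.End K M
  Bp : Submodule K B
  hD : ∀ g h, D (g * h - h * g) = D g * D h - D h * D g
  hDI : ∀ g v, D g * I v - I v * D g = - I (v * g)
  hBp : ∀ g ∈ Bp, ∀ h ∈ Bp, g * h ∈ Bp
  hnil : ∀ g ∈ Bp, IsNilpotent g
  hloc : ∀ g ∈ Bp, ∀ m, ∃ s, (D g ^ s) m = 0
  hC : ∀ s : Set B, s.Finite → ∃ N, ∀ l : List B, l.length = N → (∀ v ∈ l, v ∈ s) →
    (l.map I).prod = 0

section gen

variable {K E β : Type} [Field K] [Ring E] [Algebra K E]

theorem ad_zero (X : E) (k : ℕ) : (fun u => ⁅X, u⁆)^[k] (0 : E) = 0 := by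
  induction k with
  | zero => rfl
  | succ k ih => rw [Function.iterate_succ_apply, lie_zero, ih]

theorem ad_add (X : E) (k : ℕ) (u v : E) : (fun u => ⁅X, u⁆)^[k] (u + v) =
    (fun u => ⁅X, u⁆)^[k] u + (fun u => ⁅X, u⁆)^[k] v := by
  induction k generalizing u v with
  | zero => rfl
  | succ k ih => rw [Function.iterate_succ_apply, lie_add, ih]; rfl

theorem rlie_smul (X : E) (c : K) (u : E) : ⁅X, c • u⁆ = c • ⁅X, u⁆ := by
  simp [Ring.lie_def, smul_sub]

theorem rsmul_lie (X : E) (c : K) (u : E) : ⁅c • u, X⁆ = c • ⁅u, X⁆ := by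
  simp [Ring.lie_def, smul_sub]

theorem ad_smul (X : E) (k : ℕ) (c : K) (u : E) : (fun u => ⁅X, u⁆)^[k] (c • u) =
    c • (fun u => ⁅X, u⁆)^[k] u := by
  induction k generalizing u with
  | zero => rfl
  | succ k ih => rw [Function.iterate_succ_apply, rlie_smul, ih]; rfl

theorem ad_le (X : E) {k l : ℕ} (h : k ≤ l) {u : E} (hu : (fun u => ⁅X, u⁆)^[k] u = 0) :
    (fun u => ⁅X, u⁆)^[l] u = 0 := by
  obtain ⟨c, rfl⟩ := Nat.exists_eq_add_of_le h
  rw [add_comm, Function.iterate_add_apply, hu, ad_zero]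

theorem lie_Wt (X : E) {z : β → E} {w : β → ℕ} {s : Set β} {d : ℕ}
    (hX : ∀ b ∈ s, ⁅X, z b⁆ ∈ Wt K z w s (w b + d)) {n : ℕ} {x : E} (hx : x ∈ Wt K z w s n) :
    ⁅X, x⁆ ∈ Wt K z w s (n + d) := by
  unfold Wt at hx
  induction hx using Submodule.span_induction with
  | mem x h =>
    obtain ⟨l, h1, h2, rfl⟩ := h
    refine Wt_le (n := (l.map w).sum + d) (by omega) ?_
    clear h2
    induction l with
    | nil =>
      have : ⁅X, (1 : E)⁆ = 0 := by rw [Ring.lie_def]; simp
      simp only [List.map_nil, List.prod_nil, this]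
      exact zero_mem _
    | cons p l ih =>
      simp only [List.map_cons, List.prod_cons, List.sum_cons]
      have h3 : ⁅X, z p * (l.map z).prod⁆ = ⁅X, z p⁆ * (l.map z).prod + z p * ⁅X, (l.map z).prod⁆ := by
        simp only [Ring.lie_def]; noncomm_ring
      have h4 := fun b hb => h1 b (List.mem_cons_of_mem _ hb)
      have e1 := hX p (h1 p List.mem_cons_self)
      have e2 : z p ∈ Wt K z w s (w p) := Wt_mem (h1 p List.mem_cons_self) le_rfl
      have e3 : (l.map z).prod ∈ Wt K z w s (l.map w).sum := Wt_list l h4 le_rfl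
      rw [h3]
      exact add_mem (Wt_le (by omega) (Wt_mul e1 e3)) (Wt_le (by omega) (Wt_mul e2 (ih h4)))
  | zero => rw [lie_zero]; exact zero_mem _
  | add x y _ _ hx hy => rw [lie_add]; exact add_mem hx hy
  | smul a x _ hx => rw [rlie_smul]; exact Submodule.smul_mem _ _ hx

end gen

namespace AData

variable {K B M : Type} [Field K] [Ring B] [Algebra K B] [AddCommGroup M] [Module K M]
  (d : AData K B M)

/-- The associative algebra generated by the operators `I v`. -/
def C : Submodule K (Module.End K M) := Wt K d.I (fun _ => 1) Set.univ 1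

theorem lie_D_I (g v : B) : ⁅d.D g, d.I v⁆ = - d.I (v * g) := by
  rw [Ring.lie_def, d.hDI]

theorem C_mul {c c' : Module.End K M} (hc : c ∈ d.C) (hc' : c' ∈ d.C) : c * c' ∈ d.C :=
  Wt_le (by omega) (Wt_mul hc hc')

theorem I_mem (v : B) : d.I v ∈ d.C := Wt_mem (Set.mem_univ v) le_rfl

theorem C_lie (g : B) {c : Module.End K M} (hc : c ∈ d.C) : ⁅d.D g, c⁆ ∈ d.C := by
  have := lie_Wt (K := K) (d.D g) (z := d.I) (w := fun _ => 1) (s := Set.univ) (d := 0)
    (fun b _ => by rw [lie_D_I]; exact neg_mem (Wt_mem (Set.mem_univ _) le_rfl)) hc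
  exact this

theorem iter_I (g v : B) (k : ℕ) : (fun u => ⁅d.D g, u⁆)^[k] (d.I v) =
    (-1 : K) ^ k • d.I (v * g ^ k) := by
  induction k generalizing v with
  | zero => simp
  | succ k ih =>
    rw [Function.iterate_succ_apply, lie_D_I, ← neg_one_smul K, ad_smul, ih, smul_smul, pow_succ',
      mul_assoc, pow_succ' g k]

theorem C_adnil (g : B) (hg : g ∈ d.Bp) {c : Module.End K M} (hc : c ∈ d.C) :
    ∃ r, (fun u => ⁅d.D g, u⁆)^[r] c = 0 := by
  unfold C Wt at hc
  induction hc using Submodule.span_induction with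
  | mem x h =>
    obtain ⟨l, -, -, rfl⟩ := h
    induction l with
    | nil =>
      refine ⟨1, ?_⟩
      rw [Function.iterate_one, List.map_nil, List.prod_nil, Ring.lie_def]
      simp
    | cons v l ih =>
      obtain ⟨r, hr⟩ := ih
      obtain ⟨k, hk⟩ := d.hnil g hg
      refine ⟨k + r, ?_⟩
      rw [List.map_cons, List.prod_cons]
      apply ad_mul_zero _ _ _ _ _ _ hr
      rw [iter_I, hk, mul_zero, map_zero, smul_zero]
  | zero => exact ⟨0, rfl⟩
  | add x y _ _ hx hy =>
    obtain ⟨r, hr⟩ := hx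
    obtain ⟨t, ht⟩ := hy
    exact ⟨r + t, by rw [ad_add, ad_le _ (by omega) hr, ad_le _ (by omega) ht, add_zero]⟩
  | smul a x _ hx =>
    obtain ⟨r, hr⟩ := hx
    exact ⟨r, by rw [ad_smul, hr, smul_zero]⟩

theorem C_exists {c : Module.End K M} (hc : c ∈ d.C) :
    ∃ s : Set B, s.Finite ∧ c ∈ Wt K d.I (fun _ => 1) s 1 := by
  unfold C Wt at hc
  induction hc using Submodule.span_induction with
  | mem x h =>
    obtain ⟨l, -, h2, rfl⟩ := h
    exact ⟨{v | v ∈ l}, List.finite_toSet l, Wt_list l (fun b hb => hb) h2⟩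
  | zero => exact ⟨∅, Set.finite_empty, zero_mem _⟩
  | add x y _ _ hx hy =>
    obtain ⟨s, hs, hxs⟩ := hx
    obtain ⟨t, ht, hyt⟩ := hy
    exact ⟨s ∪ t, hs.union ht, add_mem (Wt_mono le_rfl Set.subset_union_left hxs)
      (Wt_mono le_rfl Set.subset_union_right hyt)⟩
  | smul a x _ hx =>
    obtain ⟨s, hs, hxs⟩ := hx
    exact ⟨s, hs, Submodule.smul_mem _ _ hxs⟩

theorem Wt_eq_bot {s : Set B} (hs : s.Finite) : ∃ N, Wt K d.I (fun _ => 1) s N = ⊥ := by
  obtain ⟨N, hN⟩ := d.hC s hs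
  refine ⟨N, ?_⟩
  rw [eq_bot_iff]
  unfold Wt
  rw [Submodule.span_le]
  rintro _ ⟨l, h1, h2, rfl⟩
  rw [SetLike.mem_coe, Submodule.mem_bot]
  simp only [List.map_const', List.sum_replicate, smul_eq_mul, mul_one] at h2
  have h3 := hN (l.take N) (by rw [List.length_take]; omega)
    (fun x hx => h1 x (List.mem_of_mem_take hx))
  rw [← List.take_append_drop N l, List.map_append, List.prod_append, h3, zero_mul]

/-- The big locally nilpotent ideal. -/
def II : Submodule K (Module.End K (K × M)) where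
  carrier := {T | ∃ (m : M) (c : Module.End K M), c ∈ d.C ∧ T = em m + ee c}
  add_mem' := by
    rintro _ _ ⟨m, c, hc, rfl⟩ ⟨m', c', hc', rfl⟩
    exact ⟨m + m', c + c', add_mem hc hc', by rw [map_add, map_add]; abel⟩
  zero_mem' := ⟨0, 0, zero_mem _, by rw [map_zero, map_zero, add_zero]⟩
  smul_mem' := by
    rintro a _ ⟨m, c, hc, rfl⟩
    exact ⟨a • m, a • c, Submodule.smul_mem _ _ hc, by rw [map_smul, map_smul, smul_add]⟩

theorem em_mem (m : M) : em m ∈ d.II := ⟨m, 0, zero_mem _, by rw [map_zero, add_zero]⟩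
theorem ee_mem {c : Module.End K M} (hc : c ∈ d.C) : ee c ∈ d.II :=
  ⟨0, c, hc, by rw [map_zero, zero_add]⟩

theorem II_mul {T T' : Module.End K (K × M)} (h : T ∈ d.II) (h' : T' ∈ d.II) : T * T' ∈ d.II := by
  obtain ⟨m, c, hc, rfl⟩ := h
  obtain ⟨m', c', hc', rfl⟩ := h'
  refine ⟨c m', c * c', d.C_mul hc hc', ?_⟩
  rw [add_mul, mul_add, mul_add, em_mul_em, em_mul_ee, ee_mul_em, ee_mul_ee]
  abel

theorem II_lie {T T' : Module.End K (K × M)} (h : T ∈ d.II) (h' : T' ∈ d.II) : ⁅T, T'⁆ ∈ d.II := by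
  rw [Ring.lie_def]
  exact sub_mem (d.II_mul h h') (d.II_mul h' h)

theorem II_ad (g : B) {T : Module.End K (K × M)} (h : T ∈ d.II) : ⁅ee (d.D g), T⁆ ∈ d.II := by
  obtain ⟨m, c, hc, rfl⟩ := h
  refine ⟨d.D g m, ⁅d.D g, c⁆, d.C_lie g hc, ?_⟩
  rw [lie_add, lie_ee_em, lie_ee_ee]

theorem II_adnil (g : B) (hg : g ∈ d.Bp) {T : Module.End K (K × M)} (h : T ∈ d.II) :
    ∃ r, (fun u => ⁅ee (d.D g), u⁆)^[r] T = 0 := by
  obtain ⟨m, c, hc, rfl⟩ := h
  obtain ⟨r, hr⟩ := d.C_adnil g hg hc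
  obtain ⟨t, ht⟩ := d.hloc g hg m
  have h1 : ∀ (k : ℕ) (m : M), (fun u => ⁅ee (d.D g), u⁆)^[k] (em (K := K) m) =
      em ((d.D g ^ k) m) := by
    intro k
    induction k with
    | zero => intro m; rfl
    | succ k ih =>
      intro m
      rw [Function.iterate_succ_apply, lie_ee_em, ih, pow_succ, Module.End.mul_apply]
  have h2 : ∀ (k : ℕ) (c : Module.End K M), (fun u => ⁅ee (d.D g), u⁆)^[k] (ee c) =
      ee ((fun u => ⁅d.D g, u⁆)^[k] c) := by
    intro k
    induction k with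
    | zero => intro m; rfl
    | succ k ih =>
      intro m
      rw [Function.iterate_succ_apply, lie_ee_ee, ih, ← Function.iterate_succ_apply]
  refine ⟨t + r, ?_⟩
  rw [ad_add]
  rw [ad_le (l := t + r) _ (show t ≤ t + r by omega) (by rw [h1, ht, map_zero]),
    ad_le (l := t + r) _ (show r ≤ t + r by omega) (by rw [h2, hr, map_zero]), add_zero]

theorem II_prod (s : Set B) (l : List (Module.End K (K × M))) (hl : l ≠ [])
    (h : ∀ T ∈ l, ∃ (m : M) (c : Module.End K M), c ∈ Wt K d.I (fun _ => 1) s 1 ∧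
      T = em m + ee c) :
    ∃ (m : M) (c' c : Module.End K M), c' ∈ Wt K d.I (fun _ => 1) s (l.length - 1) ∧
      c ∈ Wt K d.I (fun _ => 1) s l.length ∧ l.prod = em (c' m) + ee c := by
  induction l with
  | nil => exact absurd rfl hl
  | cons T l ih =>
    obtain ⟨m, c, hc, rfl⟩ := h _ List.mem_cons_self
    by_cases hl' : l = []
    · subst hl'
      exact ⟨m, 1, c, Wt_one, hc, by simp⟩
    · obtain ⟨m₁, c', c₁, h1, h2, h3⟩ := ih hl' (fun T hT => h T (List.mem_cons_of_mem _ hT))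
      have hlen : 1 ≤ l.length := by
        rcases l with _ | ⟨a, l⟩
        · exact absurd rfl hl'
        · simp
      refine ⟨m₁, c * c', c * c₁, ?_, ?_, ?_⟩
      · rw [List.length_cons]
        exact Wt_le (by omega) (Wt_mul hc h1)
      · rw [List.length_cons]
        exact Wt_le (by omega) (Wt_mul hc h2)
      · rw [List.prod_cons, h3, add_mul, mul_add, mul_add, em_mul_em, em_mul_ee, ee_mul_em,
          ee_mul_ee, Module.End.mul_apply]
        abel

theorem II_NP (s : Set (Module.End K (K × M))) (hs : s.Finite) (hsub : ∀ T ∈ s, T ∈ d.II) :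
    ∃ N, NP s N := by
  classical
  have h1 : ∃ t : Set B, t.Finite ∧ ∀ T ∈ s, ∃ (m : M) (c : Module.End K M),
      c ∈ Wt K d.I (fun _ => 1) t 1 ∧ T = em m + ee c := by
    induction s, hs using Set.Finite.induction_on with
    | empty => exact ⟨∅, Set.finite_empty, by simp⟩
    | insert _ _ ih =>
      rename_i T s _ _
      obtain ⟨t, ht, h2⟩ := ih (fun T hT => hsub T (Set.mem_insert_of_mem _ hT))
      obtain ⟨m, c, hc, hT⟩ := hsub T (Set.mem_insert _ _)
      obtain ⟨t', ht', hc'⟩ := d.C_exists hc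
      refine ⟨t ∪ t', ht.union ht', ?_⟩
      intro T' hT'
      rcases Set.mem_insert_iff.mp hT' with rfl | hT'
      · exact ⟨m, c, Wt_mono le_rfl Set.subset_union_right hc', hT⟩
      · obtain ⟨m', c', h3, h4⟩ := h2 T' hT'
        exact ⟨m', c', Wt_mono le_rfl Set.subset_union_left h3, h4⟩
  obtain ⟨t, ht, h2⟩ := h1
  obtain ⟨N, hN⟩ := d.Wt_eq_bot ht
  refine ⟨N + 1, fun l hl hls => ?_⟩
  obtain ⟨m, c', c, h3, h4, h5⟩ := d.II_prod t l (by rintro rfl; simp at hl)
    (fun T hT => h2 T (hls T hT))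
  rw [hl, Nat.add_sub_cancel, hN, Submodule.mem_bot] at h3
  have h6 := Wt_le (show N ≤ N + 1 by omega) (hl ▸ h4)
  rw [hN, Submodule.mem_bot] at h6
  rw [h5, h3, h6, LinearMap.zero_apply, map_zero, map_zero, add_zero]

/-- The Lie algebra. -/
def A : LieSubalgebra K (Module.End K (K × M)) where
  carrier := {T | ∃ (g : B) (i : Module.End K (K × M)), g ∈ d.Bp ∧ i ∈ d.II ∧ T = ee (d.D g) + i}
  add_mem' := by
    rintro _ _ ⟨g, i, hg, hi, rfl⟩ ⟨g', i', hg', hi', rfl⟩
    exact ⟨g + g', i + i', add_mem hg hg', add_mem hi hi', by rw [map_add, map_add]; abel⟩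
  zero_mem' := ⟨0, 0, zero_mem _, zero_mem _, by rw [map_zero, map_zero, add_zero]⟩
  smul_mem' := by
    rintro a _ ⟨g, i, hg, hi, rfl⟩
    exact ⟨a • g, a • i, Submodule.smul_mem _ _ hg, Submodule.smul_mem _ _ hi,
      by rw [map_smul, map_smul, smul_add]⟩
  lie_mem' := by
    rintro _ _ ⟨g, i, hg, hi, rfl⟩ ⟨h, j, hh, hj, rfl⟩
    refine ⟨g * h - h * g, ⁅ee (d.D g), j⁆ - ⁅ee (d.D h), i⁆ + ⁅i, j⁆,
      sub_mem (d.hBp g hg h hh) (d.hBp h hh g hg),
      add_mem (sub_mem (d.II_ad g hj) (d.II_ad h hi)) (d.II_lie hi hj), ?_⟩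
    rw [d.hD, lie_add, add_lie, add_lie, lie_ee_ee, ← Ring.lie_def, ← lie_skew (ee (d.D h)) i]
    abel

theorem mem_A_iff (T : Module.End K (K × M)) : T ∈ d.A ↔ ∃ (g : B) (i : Module.End K (K × M)),
    g ∈ d.Bp ∧ i ∈ d.II ∧ T = ee (d.D g) + i := Iff.rfl

theorem II_mem_A {T : Module.End K (K × M)} (h : T ∈ d.II) : T ∈ d.A :=
  ⟨0, T, zero_mem _, h, by rw [map_zero, map_zero, zero_add]⟩

theorem D_mem_A {g : B} (hg : g ∈ d.Bp) : ee (d.D g) ∈ d.A :=
  ⟨g, 0, hg, zero_mem _, by rw [add_zero]⟩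

theorem engel_aux {T S : Module.End K (K × M)} (hT : T ∈ d.A) (hS : S ∈ d.A) :
    ∃ n, (fun u => ⁅T, u⁆)^[n] S = 0 := by
  obtain ⟨g, i, hg, hi, rfl⟩ := hT
  obtain ⟨h, j, hh, hj, rfl⟩ := hS
  have h1 : ∀ n, ∃ j' ∈ d.II, (fun u => ⁅g, u⁆)^[n] h ∈ d.Bp ∧
      (fun u => ⁅ee (d.D g) + i, u⁆)^[n] (ee (d.D h) + j) =
        ee (d.D ((fun u => ⁅g, u⁆)^[n] h)) + j' := by
    intro n
    induction n with
    | zero => exact ⟨j, hj, hh, rfl⟩
    | succ n ih =>
      obtain ⟨j', h2, h3, h4⟩ := ih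
      rw [Function.iterate_succ_apply', Function.iterate_succ_apply', h4]
      set h' := (fun u => ⁅g, u⁆)^[n] h
      refine ⟨⁅ee (d.D g), j'⁆ - ⁅ee (d.D h'), i⁆ + ⁅i, j'⁆,
        add_mem (sub_mem (d.II_ad g h2) (d.II_ad _ hi)) (d.II_lie hi h2), ?_, ?_⟩
      · rw [Ring.lie_def]
        exact sub_mem (d.hBp g hg _ h3) (d.hBp _ h3 g hg)
      · have e1 : d.D ⁅g, h'⁆ = ⁅d.D g, d.D h'⁆ := by
          rw [Ring.lie_def, Ring.lie_def]; exact d.hD _ _
        rw [lie_add, add_lie, add_lie, lie_ee_ee, e1, ← lie_skew (ee (d.D h')) i]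
        abel
  obtain ⟨n₀, hn₀⟩ := LieAlgebra.ad_nilpotent_of_nilpotent (R := K) (d.hnil g hg)
  have h2 : (fun u => ⁅g, u⁆)^[n₀] h = 0 := by
    have h3 := LinearMap.congr_fun hn₀ h
    rw [Module.End.pow_apply] at h3
    exact h3
  obtain ⟨j', h3, -, h4⟩ := h1 n₀
  rw [h2, map_zero, map_zero, zero_add] at h4
  obtain ⟨r₁, hr₁⟩ := d.II_adnil g hg hi
  obtain ⟨r₂, hr₂⟩ := d.II_adnil g hg h3
  set s : Set (Module.End K (K × M)) := eg (ee (d.D g)) i j' '' {p | p.1 < r₁ + r₂} with hs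
  have hsfin : s.Finite := by
    apply Set.Finite.image
    have : {p : ℕ × Bool | p.1 < r₁ + r₂} = Set.Iio (r₁ + r₂) ×ˢ Set.univ := by
      ext p; simp
    rw [this]
    exact (Set.finite_Iio _).prod Set.finite_univ
  have hsub : ∀ T ∈ s, T ∈ d.II := by
    rintro _ ⟨p, -, rfl⟩
    unfold eg
    have h5 : ∀ (k : ℕ) (x : Module.End K (K × M)), x ∈ d.II →
        (fun u => ⁅ee (d.D g), u⁆)^[k] x ∈ d.II := by
      intro k
      induction k with
      | zero => intro x hx; exact hx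
      | succ k ih => intro x hx; rw [Function.iterate_succ_apply]; exact ih _ (d.II_ad g hx)
    apply h5
    split_ifs
    · exact hi
    · exact h3
  obtain ⟨N, hN⟩ := d.II_NP s hsfin hsub
  obtain ⟨n, hn⟩ := engel_core K (ee (d.D g)) i j' (r₁ + r₂) (ad_le _ (by omega) hr₁)
    (ad_le _ (by omega) hr₂) N hN
  refine ⟨n + n₀, ?_⟩
  rw [Function.iterate_add_apply, h4, hn]

theorem engel : IsEngelLie d.A := by
  intro x y
  obtain ⟨n, hn⟩ := d.engel_aux x.2 y.2
  refine ⟨n + 1, by omega, ?_⟩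
  have h1 : ∀ (k : ℕ), (((fun z : d.A => ⁅z, x⁆)^[k] y : d.A) : Module.End K (K × M)) =
      (-1 : K) ^ k • (fun u => ⁅(x : Module.End K (K × M)), u⁆)^[k] (y : Module.End K (K × M)) := by
    intro k
    induction k with
    | zero => simp
    | succ k ih =>
      rw [Function.iterate_succ_apply', Function.iterate_succ_apply', LieSubalgebra.coe_bracket, ih]
      refine (rsmul_lie (x : Module.End K (K × M)) ((-1 : K) ^ k) _).trans ?_
      rw [← lie_skew, pow_succ, mul_smul, neg_one_smul]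
  apply Subtype.ext
  rw [h1, ad_le _ (show n ≤ n + 1 by omega) hn, smul_zero]
  rfl

/-- The ideal. -/
def IIdeal : LieIdeal K d.A :=
  { Submodule.comap d.A.toSubmodule.subtype d.II with
    lie_mem := by
      rintro ⟨_, g, i, hg, hi, rfl⟩ m hm
      have hm' : (m : Module.End K (K × M)) ∈ d.II := hm
      change ⁅ee (d.D g) + i, (m : Module.End K (K × M))⁆ ∈ d.II
      rw [add_lie]
      exact add_mem (d.II_ad g hm') (d.II_lie hi hm') }

theorem mem_IIdeal (T : d.A) : T ∈ d.IIdeal ↔ (T : Module.End K (K × M)) ∈ d.II := Iff.rfl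

theorem IIdeal_nil : LieLocallyNilpotent K d.IIdeal := by
  intro s hs
  let f : d.IIdeal →ₗ⁅K⁆ Module.End K (K × M) :=
    { toFun := fun x => ((x : d.A) : Module.End K (K × M))
      map_add' := fun _ _ => rfl
      map_smul' := fun _ _ => rfl
      map_lie' := rfl }
  have hf : Function.Injective f := by
    intro x y hxy
    exact Subtype.ext (Subtype.ext hxy)
  obtain ⟨N, hN⟩ := d.II_NP (f '' s) (hs.image f) (by
    rintro _ ⟨x, _, rfl⟩
    exact (d.mem_IIdeal x.1).mp x.2)
  exact lie_nilpotent f hf s N hN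

/-- The distinguished element. -/
def a : d.A := ⟨ee (d.I 1), d.II_mem_A (d.ee_mem (d.I_mem 1))⟩

theorem a_mem : d.a ∈ lieRadical K d.A := by
  have h1 : d.IIdeal ≤ lieRadical K d.A := le_sSup d.IIdeal_nil
  exact h1 ((d.mem_IIdeal d.a).mpr (d.ee_mem (d.I_mem 1)))

variable {ι : Type} (x : ι → B)

/-- The action of the words on the module. -/
def actM : List (Option ι) → M → M
  | [], m => m
  | none :: Q, m => actM Q (d.I 1 m)
  | some i :: Q, m => actM Q (d.D (x i) m)

theorem not_mem [Finite ι] (hx : ∀ i, x i ∈ d.Bp)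
    (hbad : ∀ N : ℕ, ∃ (m : M) (P : List (Option ι)), Blk P ∧ N ≤ nn P ∧ d.actM x P m ≠ 0) :
    rightMul K d.a ∉ assocRadical (multAlg K d.A) := by
  intro hcon
  obtain ⟨P, hP, hP2⟩ := exists_isLN _ _ hcon
  have rightMul_mem : ∀ b : d.A, rightMul K b ∈ multAlg K d.A := fun b =>
    NonUnitalAlgebra.subset_adjoin K ⟨b, rfl⟩
  let xA : ι → d.A := fun i => ⟨ee (d.D (x i)), d.D_mem_A (hx i)⟩
  let mA : M → d.A := fun m => ⟨em m, d.II_mem_A (d.em_mem m)⟩
  let s : Set (Module.End K d.A) := insert (rightMul K d.a)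
    (Set.range (fun i => rightMul K d.a * rightMul K (xA i)))
  have hsfin : s.Finite := (Set.finite_range _).insert _
  have hsP : s ⊆ P := by
    rintro _ (rfl | ⟨i, rfl⟩)
    · exact hP2
    · exact hP.right _ hP2 _ (rightMul_mem _)
  obtain ⟨N, hN⟩ := hP.nil s hsfin hsP
  obtain ⟨m, Q, hQ, hNQ, hne⟩ := hbad N
  have e1 : ∀ m : M, rightMul K d.a (mA m) = - mA (d.I 1 m) := by
    intro m
    apply Subtype.ext
    change ⁅em m, ee (d.I 1)⁆ = - em (d.I 1 m)
    rw [← lie_skew, lie_ee_em]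
  have e2 : ∀ (i : ι) (m : M), rightMul K (xA i) (mA m) = - mA (d.D (x i) m) := by
    intro i m
    apply Subtype.ext
    change ⁅em m, ee (d.D (x i))⁆ = - em (d.D (x i) m)
    rw [← lie_skew, lie_ee_em]
  have key : ∀ Q : List (Option ι), Blk Q → ∃ l : List (Module.End K d.A), l.length = nn Q ∧
      (∀ T ∈ l, T ∈ s) ∧ ∀ m : M, l.prod (mA m) = (-1 : K) ^ Q.length • mA (d.actM x Q m) := by
    intro Q hQ
    induction hQ with
    | nil => exact ⟨[], rfl, by simp, fun m => by simp [actM]⟩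
    | none hQ' ih =>
      rename_i Q
      obtain ⟨l, h1, h2, h3⟩ := ih
      refine ⟨l ++ [rightMul K d.a], ?_, ?_, ?_⟩
      · rw [List.length_append, h1]; rfl
      · intro T hT
        rcases List.mem_append.mp hT with hT | hT
        · exact h2 T hT
        · rw [List.mem_singleton] at hT
          rw [hT]; exact Set.mem_insert _ _
      · intro m
        rw [List.prod_append, List.prod_singleton, Module.End.mul_apply, e1, map_neg, h3,
          List.length_cons, pow_succ, mul_neg_one, neg_smul]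
        rfl
    | some i hQ' ih =>
      rename_i Q
      obtain ⟨l, h1, h2, h3⟩ := ih
      refine ⟨l ++ [rightMul K d.a * rightMul K (xA i)], ?_, ?_, ?_⟩
      · rw [List.length_append, h1]; rfl
      · intro T hT
        rcases List.mem_append.mp hT with hT | hT
        · exact h2 T hT
        · rw [List.mem_singleton] at hT
          rw [hT]; exact Set.mem_insert_of_mem _ ⟨i, rfl⟩
      · intro m
        rw [List.prod_append, List.prod_singleton, Module.End.mul_apply, Module.End.mul_apply, e2,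
          map_neg, e1, neg_neg, h3, List.length_cons, List.length_cons, pow_succ, pow_succ,
          mul_neg_one, mul_neg_one, neg_neg]
        rfl
  obtain ⟨l, h1, h2, h3⟩ := key Q hQ
  have h4 := h3 m
  rw [hN.le l (by omega) h2, LinearMap.zero_apply] at h4
  have h5 : mA (d.actM x Q m) = 0 := by
    have h6 : ((-1 : K) ^ Q.length) ≠ 0 := pow_ne_zero _ (neg_ne_zero.mpr one_ne_zero)
    exact (smul_eq_zero.mp h4.symm).resolve_left h6
  apply hne
  apply em_inj (K := K)
  exact congrArg Subtype.val h5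

end AData

end Pool.Agent.Helper824.Lev
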