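import Pool.Agent.Helper824.Lev.Windows

set_option autoImplicit false
set_option linter.unusedSectionVars false

namespace Pool.Agent.Helper824.Lev

variable {K V ι : Type} [Field K] [AddCommGroup V] [Module K V]

section words

variable (T : ι → V →ₗ[K] V) (e : V)

/-- The vectors obtained from `e` by the operators. -/
def wd : List ι → V
  | [] => e
  | x :: U => T x (wd U)

variable {T e}

theorem ins_eq_zero_of_span (hspan : Submodule.span K (Set.range (wd T e)) = ⊤) {f : Fm K V}
    (hf : ML f) (h : ∀ U, ins (wd T e U) f = 0) (v : V) : ins v f = 0 := by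
  have hv : v ∈ Submodule.span K (Set.range (wd T e)) := by rw [hspan]; trivial
  induction hv using Submodule.span_induction with
  | mem x hx => obtain ⟨U, rfl⟩ := hx; exact h U
  | zero => exact hf.ins_zero
  | add x y _ _ hx hy => rw [hf.ins_add, hx, hy, add_zero]
  | smul a x _ hx => rw [hf.ins_smul, hx, smul_zero]

theorem exists_word_step (hspan : Submodule.span K (Set.range (wd T e)) = ⊤) {f : Fm K V}
    (hf : ML f) {s : ℕ} (hs : Supp (s + 1) f) (hne : f ≠ 0) :
    ∃ U : List ι, ins e (act T e (U.map some) f) ≠ 0 := by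
  by_contra hcon
  push Not at hcon
  apply hne
  have key : ∀ w U : List ι, ins (wd T e w) (act T e (U.map some) f) = 0 := by
    intro w
    induction w with
    | nil => exact hcon
    | cons x w ih =>
      intro U
      have h1 := ins_der (T x) (act T e (U.map some) f) (wd T e w)
      have h2 : der (T x) (act T e (U.map some) f) = act T e ((U ++ [x]).map some) f := by
        rw [List.map_append, act_append]
        rfl
      rw [ih U, map_zero, add_zero, h2, ih (U ++ [x])] at h1
      exact h1.symm
  have h3 := ins_eq_zero_of_span hspan hf (fun U => key U [])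
  funext l
  cases l with
  | nil => exact hs _ (by simp)
  | cons v l => exact congrFun (h3 v) l

theorem exists_word (hspan : Submodule.span K (Set.range (wd T e)) = ⊤) (s : ℕ) {f : Fm K V}
    (hf : ML f) (hs : Supp s f) (hne : f ≠ 0) :
    ∃ Q : List (Option ι), nn Q = s ∧ act T e Q f ≠ 0 := by
  induction s generalizing f with
  | zero => exact ⟨[], rfl, hne⟩
  | succ s ih =>
    obtain ⟨U, hU⟩ := exists_word_step hspan hf hs hne
    have h1 : ∀ (U : List ι) (f : Fm K V), ML f → ML (act T e (U.map some) f) := by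
      intro U
      induction U with
      | nil => intro f hf; exact hf
      | cons x U ih => intro f hf; exact ih _ (hf.der (T x))
    have h2 : nn (U.map some) = 0 := by
      clear hU
      induction U with
      | nil => rfl
      | cons x U ih => exact ih
    have h3 : Supp (s + 1) (act T e (U.map some) f) := by
      apply Supp.act
      rw [h2]; exact hs
    obtain ⟨Q, hQ1, hQ2⟩ := ih ((h1 U f hf).ins e) (h3.ins e) hU
    refine ⟨U.map some ++ none :: Q, ?_, ?_⟩
    · rw [nn_append, h2, nn, hQ1]; omega
    · rw [act_append, act_none]; exact hQ2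

theorem exists_min_word (hspan : Submodule.span K (Set.range (wd T e)) = ⊤) (s : ℕ) {f : Fm K V}
    (hf : ML f) (hs : Supp s f) (hne : f ≠ 0) :
    ∃ Q : List (Option ι), nn Q = s ∧ act T e Q f ≠ 0 ∧ LB T e f s (ln Q) := by
  classical
  have hex : ∃ d, ∃ Q : List (Option ι), nn Q = s ∧ act T e Q f ≠ 0 ∧ ln Q = d := by
    obtain ⟨Q, h1, h2⟩ := exists_word hspan s hf hs hne
    exact ⟨ln Q, Q, h1, h2, rfl⟩
  obtain ⟨Q, h1, h2, h3⟩ := Nat.find_spec hex
  refine ⟨Q, h1, h2, fun Q' h4 h5 => ?_⟩
  by_contra hne'
  exact Nat.find_min hex (h3 ▸ h5) ⟨Q', h4, hne', rfl⟩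

/-- total length -/
def tl (ws : List (List ι)) : ℕ := (ws.map List.length).sum

theorem der_tl (x : ι) (ws : List (List ι)) (c : ℕ) (f : Fm K V)
    (hf : ∀ ws' : List (List ι), c + 1 ≤ tl ws' → f (ws'.map (wd T e)) = 0) (hc : c ≤ tl ws) :
    der (T x) f (ws.map (wd T e)) = 0 := by
  induction ws generalizing c f with
  | nil => rfl
  | cons w ws ih =>
    have h0 : tl (w :: ws) = w.length + tl ws := by simp [tl]
    rw [List.map_cons, der_cons]
    have h1 : f (T x (wd T e w) :: ws.map (wd T e)) = 0 := by
      have := hf ((x :: w) :: ws) (by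
        have : tl ((x :: w) :: ws) = w.length + 1 + tl ws := by simp [tl]
        omega)
      exact this
    rw [h1, zero_add]
    apply ih (c - w.length)
    · intro ws' h2
      have := hf (w :: ws') (by
        have : tl (w :: ws') = w.length + tl ws' := by simp [tl]
        omega)
      exact this
    · omega

theorem eq_zero_of_words (hspan : Submodule.span K (Set.range (wd T e)) = ⊤) {f : Fm K V}
    (hf : ML f) (h : ∀ ws : List (List ι), f (ws.map (wd T e)) = 0) : f = 0 := by
  funext l
  induction l generalizing f with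
  | nil => exact h []
  | cons v l ih =>
    apply ih (hf.ins v)
    intro ws
    have h1 : ∀ v, f (v :: ws.map (wd T e)) = 0 := by
      intro v
      have hv : v ∈ Submodule.span K (Set.range (wd T e)) := by rw [hspan]; trivial
      induction hv using Submodule.span_induction with
      | mem x hx => obtain ⟨U, rfl⟩ := hx; exact h (U :: ws)
      | zero => exact congrFun hf.ins_zero _
      | add x y _ _ hx hy => rw [hf.add0, hx, hy, add_zero]
      | smul a x _ hx => rw [hf.smul0, hx, mul_zero]
    exact h1 v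

theorem exists_inv (hspan : Submodule.span K (Set.range (wd T e)) = ⊤) (L c : ℕ) (f : Fm K V)
    (h1 : ML f) (h2 : Supp L f) (h3 : ∀ i j, i < j → AltAt i j f) (h4 : f ≠ 0)
    (h5 : ∀ ws : List (List ι), c ≤ tl ws → f (ws.map (wd T e)) = 0) :
    ∃ δ : Fm K V, ML δ ∧ Supp L δ ∧ (∀ i j, i < j → AltAt i j δ) ∧ δ ≠ 0 ∧
      ∀ x, der (T x) δ = 0 := by
  induction c generalizing f with
  | zero => exact absurd (eq_zero_of_words hspan h1 (fun ws => h5 ws (Nat.zero_le _))) h4
  | succ c ih =>
    by_cases hx : ∀ x, der (T x) f = 0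
    · exact ⟨f, h1, h2, h3, h4, hx⟩
    · push Not at hx
      obtain ⟨x, hx⟩ := hx
      exact ih (der (T x) f) (h1.der _) (h2.der _) (fun i j hij => (h3 i j hij).der _ hij h1) hx
        (fun ws hws => der_tl x ws c f h5 hws)

/-- The form attached to an alternating map. -/
def ofAlt (L : ℕ) (g : V [⋀^Fin L]→ₗ[K] K) : Fm K V :=
  fun l => if l.length = L then g (fun j => l.getD j 0) else 0

theorem ofAlt_update (L : ℕ) (l : List V) (hl : l.length = L) (k : ℕ) (hk : k < l.length) (x : V) :
    (fun j : Fin L => (l.set k x).getD j 0) =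
      Function.update (fun j : Fin L => l.getD j 0) ⟨k, hl ▸ hk⟩ x := by
  funext j
  simp only [List.getD_eq_getElem?_getD]
  by_cases h : j = ⟨k, hl ▸ hk⟩
  · subst h
    rw [Function.update_self, List.getElem?_set_self hk]
    rfl
  · rw [Function.update_of_ne h, List.getElem?_set_ne]
    intro h'
    apply h
    exact Fin.ext h'.symm

theorem ofAlt_ML (L : ℕ) (g : V [⋀^Fin L]→ₗ[K] K) : ML (ofAlt L g) := by
  refine ⟨fun l k x y h => ?_, fun l k c x h => ?_⟩
  · simp only [ofAlt, List.length_set]
    split_ifs with hl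
    · rw [ofAlt_update L l hl k h, ofAlt_update L l hl k h, ofAlt_update L l hl k h,
        g.map_update_add]
    · simp
  · simp only [ofAlt, List.length_set]
    split_ifs with hl
    · rw [ofAlt_update L l hl k h, ofAlt_update L l hl k h, g.map_update_smul, smul_eq_mul]
    · simp

theorem ofAlt_supp (L : ℕ) (g : V [⋀^Fin L]→ₗ[K] K) : Supp L (ofAlt L g) := by
  intro l hl
  simp [ofAlt, hl]

theorem ofAlt_alt (L : ℕ) (g : V [⋀^Fin L]→ₗ[K] K) (i j : ℕ) (hij : i < j) :
    AltAt i j (ofAlt L g) := by
  intro l v hi hj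
  simp only [ofAlt]
  split_ifs with hl
  · have hj' : j < l.length := by
      by_contra hcon
      rw [List.getElem?_eq_none (by omega)] at hj
      simp at hj
    apply g.map_eq_zero_of_eq _ (i := ⟨i, by omega⟩) (j := ⟨j, by omega⟩)
    · simp only [List.getD_eq_getElem?_getD, hi, hj]
    · intro h
      have := congrArg Fin.val h
      simp only at this
      omega
  · rfl

theorem exists_delta (hspan : Submodule.span K (Set.range (wd T e)) = ⊤) (φ : ℕ → V →ₗ[K] K)
    (hφ1 : ∀ n (U : List ι), U.length ≠ n → φ n (wd T e U) = 0)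
    (hφ2 : ∀ n, ∃ U : List ι, U.length = n ∧ φ n (wd T e U) = 1) (L : ℕ) (hL : 1 ≤ L) :
    ∃ δ : Fm K V, ML δ ∧ Supp L δ ∧ (∀ i j, i < j → AltAt i j δ) ∧ δ ≠ 0 ∧
      ∀ x, der (T x) δ = 0 := by
  classical
  let Φ : V →ₗ[K] (Fin L → K) := LinearMap.pi (fun i => φ i)
  let g : V [⋀^Fin L]→ₗ[K] K := (Matrix.detRowAlternating (n := Fin L) (R := K)).compLinearMap Φ
  apply exists_inv hspan L (L * L) (ofAlt L g) (ofAlt_ML L g) (ofAlt_supp L g) (ofAlt_alt L g)
  · choose U hU1 hU2 using hφ2
    intro h
    have h1 := congrFun h (List.ofFn (fun i : Fin L => wd T e (U i)))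
    have h2 : (fun j : Fin L => (List.ofFn (fun i : Fin L => wd T e (U i))).getD j 0) =
        fun j : Fin L => wd T e (U j) := by
      funext j
      simp [List.getD_eq_getElem?_getD]
    simp only [ofAlt, List.length_ofFn, if_true, h2, Pi.zero_apply] at h1
    have h3 : g (fun j : Fin L => wd T e (U j)) = Matrix.det (1 : Matrix (Fin L) (Fin L) K) := by
      change Matrix.det (fun j : Fin L => Φ (wd T e (U j))) = _
      congr 1
      ext j i
      change φ i (wd T e (U j)) = _
      rw [Matrix.one_apply]
      split_ifs with hij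
      · subst hij; exact hU2 _
      · apply hφ1
        rw [hU1]
        exact fun h => hij (Fin.ext h)
    rw [h3, Matrix.det_one] at h1
    exact one_ne_zero h1
  · intro ws hws
    simp only [ofAlt, List.length_map]
    split_ifs with hl
    · obtain ⟨w, hw, hwL⟩ : ∃ w ∈ ws, L ≤ w.length := by
        by_contra hcon
        push Not at hcon
        have h1 : tl ws < L * L := by
          unfold tl
          have h2 : (ws.map List.length).sum ≤ (ws.map List.length).length • (L - 1) := by
            apply List.sum_le_card_nsmul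
            intro x hx
            rw [List.mem_map] at hx
            obtain ⟨w, hw, rfl⟩ := hx
            have := hcon w hw
            omega
          rw [List.length_map, hl, smul_eq_mul] at h2
          have h3 : L * (L - 1) < L * L := Nat.mul_lt_mul_of_pos_left (by omega) (by omega)
          omega
        omega
      obtain ⟨i, hi, rfl⟩ := List.mem_iff_getElem.mp hw
      change Matrix.det (fun j : Fin L => Φ ((ws.map (wd T e)).getD j 0)) = 0
      apply Matrix.det_eq_zero_of_row_eq_zero ⟨i, by omega⟩
      intro j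
      change φ j ((ws.map (wd T e)).getD i 0) = 0
      have h4 : (ws.map (wd T e)).getD i 0 = wd T e ws[i] := by
        simp [List.getD_eq_getElem?_getD, hi]
      rw [h4]
      apply hφ1
      have := j.2
      omega
    · rfl

/-- The data of a stage. -/
structure Stg (T : ι → V →ₗ[K] V) (e : V) where
  Φ : Fm K V
  P : List (Option ι)
  ml : ML Φ
  supp : Supp (nn P) Φ
  inv : ∀ x, der (T x) Φ = 0
  lb : LB T e Φ (nn P) (ln P)
  ne : act T e P Φ [] ≠ 0
  blk : ∃ P', Blk P' ∧ P = none :: P'

/-- The data for the determinants. -/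
structure Dat (T : ι → V →ₗ[K] V) (e : V) (L : ℕ) where
  δ : Fm K V
  Q : List (Option ι)
  nnQ : nn Q = L
  ml : ML δ
  supp : Supp L δ
  alt : ∀ i j, i < j → AltAt i j δ
  inv : ∀ x, der (T x) δ = 0
  ne : act T e Q δ [] ≠ 0
  lb : LB T e δ L (ln Q)

theorem exists_Dat (hspan : Submodule.span K (Set.range (wd T e)) = ⊤) (φ : ℕ → V →ₗ[K] K)
    (hφ1 : ∀ n (U : List ι), U.length ≠ n → φ n (wd T e U) = 0)
    (hφ2 : ∀ n, ∃ U : List ι, U.length = n ∧ φ n (wd T e U) = 1) (L : ℕ) (hL : 1 ≤ L) :
    Nonempty (Dat T e L) := by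
  obtain ⟨δ, h1, h2, h3, h4, h5⟩ := exists_delta hspan φ hφ1 hφ2 L hL
  obtain ⟨Q, h6, h7, h8⟩ := exists_min_word hspan L h1 h2 h4
  refine ⟨⟨δ, Q, h6, h1, h2, h3, h5, ?_, h8⟩⟩
  intro h9
  apply h7
  have h10 : Supp 0 (act T e Q δ) := by
    apply Supp.act
    rw [h6, zero_add]; exact h2
  funext l
  cases l with
  | nil => exact h9
  | cons v l => exact h10 _ (by simp)

/-- The next stage. -/
def Stg.next (S : Stg T e) {L : ℕ} (D : Dat T e L) : Stg T e where
  Φ := cat (nn S.P) S.Φ (J (nn S.P) S.Φ D.Q D.δ)
  P := S.P ++ expand S.P D.Q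
  ml := S.ml.cat (S.ml.J _ _ D.ml) _
  supp := by
    have h1 := S.supp.cat (S.supp.J D.Q (by rw [D.nnQ]; exact D.supp))
    rw [nn_append, nn_expand]
    exact h1
  inv := by
    intro x
    rw [der_cat, S.inv x, cat_zero_left, zero_add, der_J _ (S.inv x), D.inv x, map_zero, map_zero]
  lb := by
    have h1 := S.lb.cat (S.lb.J S.inv D.Q (δ := D.δ) (by rw [D.nnQ]; exact D.lb))
    rw [nn_append, nn_expand, ln_append, ln_expand]
    exact h1
  ne := by
    rw [act_append, act_cat _ _ _ _ S.P S.lb rfl le_rfl, map_smul, act_J S.lb S.inv, Pi.smul_apply,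
      Pi.smul_apply]
    simp only [smul_eq_mul]
    exact mul_ne_zero S.ne (mul_ne_zero (pow_ne_zero _ S.ne) D.ne)
  blk := by
    obtain ⟨P', h1, h2⟩ := S.blk
    refine ⟨P' ++ expand S.P D.Q, ?_, ?_⟩
    · rw [h2]; exact h1.append (Blk.expand h1)
    · rw [h2]; rfl

theorem next_nn (S : Stg T e) {L : ℕ} (D : Dat T e L) :
    nn (S.next D).P = nn S.P + (nn D.Q + D.Q.length * nn S.P) := by
  change nn (S.P ++ expand S.P D.Q) = _
  rw [nn_append, nn_expand]

/-- The sequence of the stages. -/
def stages (S : Stg T e) (D : ∀ k : ℕ, Dat T e (k + 2)) : ℕ → Stg T e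
  | 0 => S
  | k + 1 => (stages S D k).next (D k)

theorem stages_nn (S : Stg T e) (hS : nn S.P = 1) (D : ∀ k : ℕ, Dat T e (k + 2)) (k : ℕ) :
    k < nn (stages S D k).P := by
  induction k with
  | zero => change 0 < nn S.P; omega
  | succ k ih =>
    change k + 1 < nn ((stages S D k).next (D k)).P
    rw [next_nn, (D k).nnQ]
    omega

theorem stages_win (S : Stg T e) (hS : nn S.P = 1) (D : ∀ k : ℕ, Dat T e (k + 2)) (k j : ℕ)
    (hj : j ≤ k) :
    Win (j + 1) (nn (stages S D j).P) (nn (stages S D k).P) (stages S D k).Φ := by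
  have base : ∀ k, Has (k + 1) (stages S D k).Φ 0 (nn (stages S D k).P) → 
      Win (k + 1) (nn (stages S D k).P) (nn (stages S D k).P) (stages S D k).Φ := by
    intro k hk
    refine ⟨le_rfl, hk, by rw [Nat.sub_self]; exact hk, fun p hp => ?_⟩
    have := stages_nn S hS D k
    omega
  induction k with
  | zero =>
    obtain rfl : j = 0 := by omega
    apply base
    refine ⟨{0}, ?_, by simp, ?_⟩
    · intro i hi
      rw [Finset.mem_singleton] at hi
      subst hi
      exact ⟨le_rfl, by change 0 < nn S.P; omega⟩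
    · intro i hi j hj hij
      rw [Finset.mem_singleton] at hi hj
      omega
  | succ k ih =>
    rcases Nat.eq_or_lt_of_le hj with rfl | hj'
    · apply base
      have := has_own (nn (stages S D k).P) (stages S D k).Φ (D k).Q (D k).δ (D k).alt
      change Has (k + 1 + 1) ((stages S D k).next (D k)).Φ 0 (nn ((stages S D k).next (D k)).P)
      rw [next_nn]
      have e1 : nn (D k).Q = k + 1 + 1 := (D k).nnQ
      obtain ⟨B, b1, b2, b3⟩ := this
      exact ⟨B, b1, e1 ▸ b2, b3⟩
    · change Win (j + 1) (nn (stages S D j).P) (nn ((stages S D k).next (D k)).P)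
        ((stages S D k).next (D k)).Φ
      rw [next_nn]
      exact (ih (by omega)).next (D k).Q (D k).δ

theorem exists_bad (hspan : Submodule.span K (Set.range (wd T e)) = ⊤) (φ : ℕ → V →ₗ[K] K)
    (hφ1 : ∀ n (U : List ι), U.length ≠ n → φ n (wd T e U) = 0)
    (hφ2 : ∀ n, ∃ U : List ι, U.length = n ∧ φ n (wd T e U) = 1) :
    ∃ N : ℕ → ℕ, ∀ m, ∃ (f : Fm K V) (P : List (Option ι)), f ∈ MM K V N ∧ Blk P ∧ m ≤ nn P ∧
      act T e P f ≠ 0 := by
  -- the first stage
  let f0 : Fm K V := fun l => if l.length = 1 then φ 0 (l.getD 0 0) else 0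
  have hf0 : ML f0 := by
    have hup : ∀ (l : List V) (k : ℕ) (x : V), k < l.length → l.length = 1 →
        (l.set k x).getD 0 0 = x := by
      intro l k x hk hl
      obtain rfl : k = 0 := by omega
      rw [List.getD_eq_getElem?_getD, List.getElem?_set_self hk]; rfl
    refine ⟨fun l k x y h => ?_, fun l k c x h => ?_⟩
    · simp only [f0, List.length_set]
      split_ifs with hl
      · rw [hup _ _ _ h hl, hup _ _ _ h hl, hup _ _ _ h hl, map_add]
      · simp
    · simp only [f0, List.length_set]
      split_ifs with hl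
      · rw [hup _ _ _ h hl, hup _ _ _ h hl, map_smul, smul_eq_mul]
      · simp
  have hs0 : Supp 1 f0 := by
    intro l hl
    simp [f0, hl]
  have hi0 : ∀ x, der (T x) f0 = 0 := by
    intro x
    apply eq_zero_of_words hspan (hf0.der _)
    intro ws
    by_cases hws : (ws.map (wd T e)).length = 1
    · obtain ⟨w, rfl⟩ : ∃ w, ws = [w] := by
        rw [List.length_map] at hws
        exact List.length_eq_one_iff.mp hws
      rw [List.map_cons, List.map_nil, der_cons, der_nil, add_zero]
      simp only [f0, List.length_singleton, if_true, List.getD_cons_zero]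
      exact hφ1 0 (x :: w) (by simp)
    · exact hs0.der _ _ hws
  have he : φ 0 e = 1 := by
    obtain ⟨U, hU, hU1⟩ := hφ2 0
    rw [List.length_eq_zero_iff] at hU
    subst hU
    exact hU1
  let S : Stg T e := 
    { Φ := f0
      P := [none]
      ml := hf0
      supp := hs0
      inv := hi0
      lb := fun Q _ h => by simp [ln] at h
      ne := by
        change f0 [e] ≠ 0
        simp [f0, he]
      blk := ⟨[], Blk.nil, rfl⟩ }
  have hD := fun k : ℕ => exists_Dat hspan φ hφ1 hφ2 (k + 2) (by omega)
  let D : ∀ k : ℕ, Dat T e (k + 2) := fun k => (hD k).some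
  refine ⟨fun j => 2 * nn (stages S D j).P, fun m => ⟨(stages S D m).Φ, (stages S D m).P, ?_, ?_,
    (stages_nn S rfl D m).le, ?_⟩⟩
  · apply Submodule.subset_span
    refine ⟨(stages S D m).ml, nn (stages S D m).P, (stages S D m).supp, fun j p hp => ?_⟩
    by_cases hj : j ≤ m
    · exact (stages_win S rfl D m j hj).WP p hp
    · exfalso
      have h1 := (stages_win S rfl D j m (by omega)).le
      have h2 := stages_nn S rfl D m
      simp only at hp
      omega
  · obtain ⟨P', h1, h2⟩ := (stages S D m).blk
    rw [h2]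
    exact Blk.none h1
  · intro h
    exact (stages S D m).ne (by rw [h]; rfl)

end words

end Pool.Agent.Helper824.Lev
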