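import Pool.Agent.Helper824.Lev.LieAbs
import Pool.Agent.Helper824.Lev.Stage

set_option autoImplicit false
set_option linter.unusedSectionVars false

namespace Pool.Agent.Helper824.Lev

open Polynomial

/-- A graded algebra generated by two elements of degree one, with nonzero products of all lengths,
such that the elements without constant term are nilpotent. The grading is given by the algebra
map `D`. -/
structure NilData (K B : Type) [Field K] [Ring B] [Algebra K B] where
  D : B →ₐ[K] B[X]
  x : Fin 2 → B
  D_x : ∀ i, D (x i) = C (x i) * X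
  span : Submodule.span K (Set.range (fun w : List (Fin 2) => (w.map x).prod)) = ⊤
  word_ne : ∀ n, ∃ w : List (Fin 2), w.length = n ∧ (w.map x).prod ≠ 0
  nil : ∀ b, (D b).coeff 0 = 0 → IsNilpotent b

namespace NilData

variable {K B : Type} [Field K] [Ring B] [Algebra K B] (d : NilData K B)

/-- right multiplication by the letters -/
def T (i : Fin 2) : B →ₗ[K] B := LinearMap.mulRight K (d.x i)

theorem wd_eq (U : List (Fin 2)) : wd d.T 1 U = (U.reverse.map d.x).prod := by
  induction U with
  | nil => rfl
  | cons i U ih =>
    rw [wd, ih, List.reverse_cons, List.map_append, List.prod_append]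
    simp [T]

theorem D_wd (U : List (Fin 2)) : d.D (wd d.T 1 U) = C (wd d.T 1 U) * X ^ U.length := by
  induction U with
  | nil => simp [wd]
  | cons i U ih =>
    have h : wd d.T 1 (i :: U) = wd d.T 1 U * d.x i := rfl
    rw [h, map_mul, ih, d.D_x, List.length_cons, map_mul, pow_succ]
    rw [mul_assoc, ← mul_assoc (X ^ U.length), X_pow_mul_C, mul_assoc, ← mul_assoc]

theorem coeff_wd (n : ℕ) (U : List (Fin 2)) :
    (d.D (wd d.T 1 U)).coeff n = if U.length = n then wd d.T 1 U else 0 := by
  rw [D_wd, coeff_C_mul, coeff_X_pow]
  split_ifs with h1 h2 h2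
  · rw [mul_one]
  · exact absurd h1.symm h2
  · exact absurd h2.symm h1
  · rw [mul_zero]

theorem span_wd : Submodule.span K (Set.range (wd d.T 1)) = ⊤ := by
  rw [← d.span]
  congr 1
  ext b
  constructor
  · rintro ⟨U, rfl⟩
    exact ⟨U.reverse, (d.wd_eq U).symm⟩
  · rintro ⟨w, rfl⟩
    exact ⟨w.reverse, by rw [wd_eq, List.reverse_reverse]⟩

theorem exists_phi : ∃ φ : ℕ → B →ₗ[K] K,
    (∀ n (U : List (Fin 2)), U.length ≠ n → φ n (wd d.T 1 U) = 0) ∧
    ∀ n, ∃ U : List (Fin 2), U.length = n ∧ φ n (wd d.T 1 U) = 1 := by
  have h1 : ∀ n, ∃ (U : List (Fin 2)) (f : B →ₗ[K] K), U.length = n ∧ f (wd d.T 1 U) = 1 := by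
    intro n
    obtain ⟨w, hw, hne⟩ := d.word_ne n
    have h2 : wd d.T 1 w.reverse ∉ (⊥ : Submodule K B) := by
      rw [wd_eq, List.reverse_reverse, Submodule.mem_bot]; exact hne
    obtain ⟨f, hf, _⟩ := Submodule.exists_le_ker_of_notMem h2
    refine ⟨w.reverse, (f (wd d.T 1 w.reverse))⁻¹ • f, by rw [List.length_reverse, hw], ?_⟩
    rw [LinearMap.smul_apply, smul_eq_mul, inv_mul_cancel₀ hf]
  choose U f hU hf using h1
  let cf : ℕ → B →ₗ[K] B := fun n =>
    { toFun := fun b => (d.D b).coeff n
      map_add' := fun b c => by rw [map_add, coeff_add]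
      map_smul' := fun a b => by rw [map_smul, coeff_smul]; rfl }
  refine ⟨fun n => f n ∘ₗ cf n, fun n V hV => ?_, fun n => ⟨U n, hU n, ?_⟩⟩
  · change f n ((d.D (wd d.T 1 V)).coeff n) = 0
    rw [coeff_wd, if_neg hV, map_zero]
  · change f n ((d.D (wd d.T 1 (U n))).coeff n) = 1
    rw [coeff_wd, if_pos (hU n), hf]

/-- The positive part. -/
def Bp : Submodule K B where
  carrier := {b | (d.D b).coeff 0 = 0}
  add_mem' := by
    intro a b ha hb
    simp only [Set.mem_ofPred_eq] at ha hb ⊢
    rw [map_add, coeff_add, ha, hb, add_zero]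
  zero_mem' := by
    simp only [Set.mem_ofPred_eq]
    rw [map_zero, coeff_zero]
  smul_mem' := by
    intro c a ha
    simp only [Set.mem_ofPred_eq] at ha ⊢
    rw [map_smul, coeff_smul, ha, smul_zero]

theorem mem_Bp (b : B) : b ∈ d.Bp ↔ (d.D b).coeff 0 = 0 := Iff.rfl

variable (N : ℕ → ℕ)

/-- The data of the Lie algebra. -/
noncomputable def toAData : AData K B (MM K B N) where
  D :=
    { toFun := fun g => (der (LinearMap.mulRight K g)).restrict (fun f hf => MM_der _ hf)
      map_add' := by
        intro g h
        apply LinearMap.ext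
        intro f
        apply Subtype.ext
        change der (LinearMap.mulRight K (g + h)) f.1 =
          der (LinearMap.mulRight K g) f.1 + der (LinearMap.mulRight K h) f.1
        rw [← der_add (MM_ML f.2)]
        congr 2
        apply LinearMap.ext; intro v
        simp [mul_add]
      map_smul' := by
        intro c g
        apply LinearMap.ext
        intro f
        apply Subtype.ext
        change der (LinearMap.mulRight K (c • g)) f.1 = c • der (LinearMap.mulRight K g) f.1
        rw [← der_smul (MM_ML f.2)]
        congr 2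
        apply LinearMap.ext; intro v
        simp }
  I :=
    { toFun := fun v => (ins v).restrict (fun f hf => MM_ins _ hf)
      map_add' := by
        intro g h
        apply LinearMap.ext
        intro f
        apply Subtype.ext
        exact (MM_ML f.2).ins_add g h
      map_smul' := by
        intro c g
        apply LinearMap.ext
        intro f
        apply Subtype.ext
        exact (MM_ML f.2).ins_smul c g }
  Bp := d.Bp
  hD := by
    intro g h
    apply LinearMap.ext
    intro f
    apply Subtype.ext
    change der (LinearMap.mulRight K (g * h - h * g)) f.1 =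
      der (LinearMap.mulRight K g) (der (LinearMap.mulRight K h) f.1) -
        der (LinearMap.mulRight K h) (der (LinearMap.mulRight K g) f.1)
    rw [der_comm (MM_ML f.2)]
    congr 2
    apply LinearMap.ext; intro v
    simp [mul_sub, mul_assoc]
  hDI := by
    intro g v
    apply LinearMap.ext
    intro f
    apply Subtype.ext
    change der (LinearMap.mulRight K g) (ins v f.1) - ins v (der (LinearMap.mulRight K g) f.1) =
      - ins (v * g) f.1
    rw [ins_der, LinearMap.mulRight_apply]
    abel
  hBp := by
    intro g hg h hh
    rw [mem_Bp] at hg hh ⊢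
    rw [map_mul, mul_coeff_zero, hg, zero_mul]
  hnil := fun g hg => d.nil g hg
  hloc := by
    intro g hg m
    obtain ⟨r, hr⟩ := d.nil g hg
    obtain ⟨s, hs⟩ := MM_supp m.2 (LinearMap.mulRight K g) r
      (by rw [LinearMap.pow_mulRight, hr, LinearMap.mulRight_zero_eq_zero])
    refine ⟨s, ?_⟩
    apply Subtype.ext
    have h1 : ∀ (s : ℕ) (m : MM K B N),
        ((((der (LinearMap.mulRight K g)).restrict (fun f hf => MM_der _ hf) :
          Module.End K (MM K B N)) ^ s) m : Fm K B) = ((der (LinearMap.mulRight K g)) ^ s) m.1 := by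
      intro s
      induction s with
      | zero => intro m; rfl
      | succ s ih =>
        intro m
        rw [pow_succ, pow_succ, Module.End.mul_apply, Module.End.mul_apply, ih]
        rfl
    exact (h1 s m).trans hs
  hC := by
    intro s hs
    set W : Submodule K B := Submodule.span K s with hW
    have hfd : FiniteDimensional K W := FiniteDimensional.span_of_finite K hs
    refine ⟨N (Module.finrank K W), fun l hl hls => ?_⟩
    apply LinearMap.ext
    intro f
    apply Subtype.ext
    funext l'
    have h1 : ∀ (l l' : List B) (f : MM K B N),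
        ((l.map (fun v => ((ins v).restrict (fun f hf => MM_ins _ hf) :
          Module.End K (MM K B N)))).prod f : Fm K B) l' = f.1 (l.reverse ++ l') := by
      intro l
      induction l with
      | nil => intro l' f; rfl
      | cons v l ih =>
        intro l' f
        rw [List.map_cons, List.prod_cons, Module.End.mul_apply, List.reverse_cons,
          List.append_assoc]
        exact ih (v :: l') f
    refine (h1 l l' f).trans ?_
    exact MM_vanish W f.2 l.reverse l' (by rw [List.length_reverse, hl])
      (fun v hv => Submodule.subset_span (hls v (List.mem_reverse.mp hv)))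

theorem actM_coe (P : List (Option (Fin 2))) (f : MM K B N) :
    (((d.toAData N).actM d.x P f : MM K B N) : Fm K B) = act d.T 1 P f.1 := by
  induction P generalizing f with
  | nil => rfl
  | cons o P ih =>
    cases o with
    | none => exact ih _
    | some i => exact ih _

theorem main (d : NilData K B) : ∃ (A : Type) (_ : LieRing A) (_ : LieAlgebra K A),
    IsEngelLie A ∧ ∃ a : A, a ∈ lieRadical K A ∧
      rightMul K a ∉ assocRadical (multAlg K A) := by
  obtain ⟨φ, h1, h2⟩ := d.exists_phi
  obtain ⟨N, hN⟩ := exists_bad d.span_wd φ h1 h2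
  refine ⟨(d.toAData N).A, inferInstance, inferInstance, (d.toAData N).engel, (d.toAData N).a,
    (d.toAData N).a_mem, ?_⟩
  apply (d.toAData N).not_mem d.x
  · intro i
    change (d.D (d.x i)).coeff 0 = 0
    rw [d.D_x, coeff_mul_X_zero]
  · intro n
    obtain ⟨f, P, hf, hP, hn, hne⟩ := hN n
    refine ⟨⟨f, hf⟩, P, hP, hn, ?_⟩
    intro h
    apply hne
    rw [← d.actM_coe N P ⟨f, hf⟩, h]
    rfl

end NilData

end Pool.Agent.Helper824.Lev
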