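import Mathlib

set_option autoImplicit false
set_option linter.unusedSectionVars false

namespace Pool.Agent.Helper824.Lev

attribute [local instance 100] LieRing.ofAssociativeRing

variable (K : Type) {E β : Type} [Field K] [Ring E] [Algebra K E]

/-- All products of `N` elements of `s` vanish. -/
def NP (s : Set E) (N : ℕ) : Prop :=
  ∀ l : List E, l.length = N → (∀ x ∈ l, x ∈ s) → l.prod = 0

theorem NP.le {s : Set E} {N : ℕ} (h : NP s N) (l : List E) (hl : N ≤ l.length)
    (hs : ∀ x ∈ l, x ∈ s) : l.prod = 0 := by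
  have h1 : (l.take N).prod = 0 :=
    h _ (by rw [List.length_take]; omega) (fun x hx => hs x (List.mem_of_mem_take hx))
  rw [← List.prod_take_mul_prod_drop l N, h1, zero_mul]

/-- The span of the products of words with weight at least `n`. -/
def Wt (z : β → E) (w : β → ℕ) (s : Set β) (n : ℕ) : Submodule K E :=
  Submodule.span K {x | ∃ l : List β, (∀ b ∈ l, b ∈ s) ∧ n ≤ (l.map w).sum ∧ x = (l.map z).prod}

variable {K} {z : β → E} {w : β → ℕ} {s : Set β}

theorem Wt_list (l : List β) (hs : ∀ b ∈ l, b ∈ s) {n : ℕ} (hn : n ≤ (l.map w).sum) :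
    (l.map z).prod ∈ Wt K z w s n := Submodule.subset_span ⟨l, hs, hn, rfl⟩

theorem Wt_one : (1 : E) ∈ Wt K z w s 0 := by
  have := Wt_list (K := K) (z := z) (w := w) (s := s) [] (by simp) (Nat.zero_le _)
  simpa using this

theorem Wt_mem {b : β} (hb : b ∈ s) {n : ℕ} (hn : n ≤ w b) : z b ∈ Wt K z w s n := by
  have := Wt_list (K := K) (z := z) (w := w) (s := s) [b] (by simpa using hb) (n := n)
    (by simpa using hn)
  simpa using this

theorem Wt_mul {m n : ℕ} {x y : E} (hx : x ∈ Wt K z w s m) (hy : y ∈ Wt K z w s n) :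
    x * y ∈ Wt K z w s (m + n) := by
  have h : Wt K z w s m * Wt K z w s n ≤ Wt K z w s (m + n) := by
    unfold Wt
    rw [Submodule.span_mul_span, Submodule.span_le]
    rintro _ ⟨_, ⟨l, h1, h2, rfl⟩, _, ⟨l', h1', h2', rfl⟩, rfl⟩
    apply Submodule.subset_span
    refine ⟨l ++ l', ?_, ?_, ?_⟩
    · intro b hb
      rcases List.mem_append.mp hb with hb | hb
      · exact h1 b hb
      · exact h1' b hb
    · rw [List.map_append, List.sum_append]; omega
    · simp only [List.map_append, List.prod_append]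
  exact h (Submodule.mul_mem_mul hx hy)

theorem Wt_mono {m n : ℕ} (h : m ≤ n) {s' : Set β} (hs : s ⊆ s') :
    Wt K z w s n ≤ Wt K z w s' m := by
  apply Submodule.span_mono
  rintro x ⟨l, h1, h2, h3⟩
  exact ⟨l, fun b hb => hs (h1 b hb), le_trans h h2, h3⟩

theorem Wt_le {m n : ℕ} (h : m ≤ n) {x : E} (hx : x ∈ Wt K z w s n) : x ∈ Wt K z w s m :=
  Wt_mono h (subset_refl s) hx

/-- Elements killed by a power of a derivation. -/
theorem ad_mul_zero (X : E) (m n : ℕ) (x y : E) (hx : (fun u => ⁅X, u⁆)^[m] x = 0)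
    (hy : (fun u => ⁅X, u⁆)^[n] y = 0) : (fun u => ⁅X, u⁆)^[m + n] (x * y) = 0 := by
  have hadd : ∀ (k : ℕ) (u v : E), (fun u => ⁅X, u⁆)^[k] (u + v) =
      (fun u => ⁅X, u⁆)^[k] u + (fun u => ⁅X, u⁆)^[k] v := by
    intro k
    induction k with
    | zero => intro u v; rfl
    | succ k ih => intro u v; rw [Function.iterate_succ_apply, lie_add, ih]; rfl
  have hzero : ∀ k : ℕ, (fun u => ⁅X, u⁆)^[k] (0 : E) = 0 := by
    intro k
    induction k with
    | zero => rfl
    | succ k ih => rw [Function.iterate_succ_apply, lie_zero, ih]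
  have key : ∀ N m n : ℕ, m + n = N → ∀ x y : E, (fun u => ⁅X, u⁆)^[m] x = 0 →
      (fun u => ⁅X, u⁆)^[n] y = 0 → (fun u => ⁅X, u⁆)^[N] (x * y) = 0 := by
    intro N
    induction N with
    | zero =>
      intro m n hmn x y hx hy
      obtain ⟨rfl, rfl⟩ : m = 0 ∧ n = 0 := by omega
      rw [Function.iterate_zero, id_eq] at hx ⊢
      rw [hx, zero_mul]
    | succ N ih =>
      intro m n hmn x y hx hy
      have h1 : ⁅X, x * y⁆ = ⁅X, x⁆ * y + x * ⁅X, y⁆ := by
        simp only [Ring.lie_def]; noncomm_ring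
      rw [Function.iterate_succ_apply, h1, hadd]
      have e1 : (fun u => ⁅X, u⁆)^[N] (⁅X, x⁆ * y) = 0 := by
        rcases m with _ | m
        · rw [Function.iterate_zero, id_eq] at hx
          rw [hx, lie_zero, zero_mul, hzero]
        · exact ih m n (by omega) _ _ hx hy
      have e2 : (fun u => ⁅X, u⁆)^[N] (x * ⁅X, y⁆) = 0 := by
        rcases n with _ | n
        · rw [Function.iterate_zero, id_eq] at hy
          rw [hy, lie_zero, mul_zero, hzero]
        · exact ih m n (by omega) _ _ hx hy
      rw [e1, e2, add_zero]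
  exact key (m + n) m n rfl x y hx hy

/-- The generators used in the proof of the Engel property. -/
def eg (X i y : E) : ℕ × Bool → E := fun p => (fun u => ⁅X, u⁆)^[p.1] (if p.2 then i else y)

variable (K) in
theorem lie_eg (X i y : E) {n : ℕ} {x : E}
    (hx : x ∈ Wt K (eg X i y) (fun p => p.1 + 1) Set.univ n) :
    ⁅X, x⁆ ∈ Wt K (eg X i y) (fun p => p.1 + 1) Set.univ (n + 1) := by
  unfold Wt at hx
  induction hx using Submodule.span_induction with
  | mem x h =>
    obtain ⟨l, -, h2, rfl⟩ := h
    refine Wt_le (n := (l.map (fun p : ℕ × Bool => p.1 + 1)).sum + 1) (by omega) ?_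
    clear h2
    induction l with
    | nil =>
      have : ⁅X, (1 : E)⁆ = 0 := by rw [Ring.lie_def]; simp
      simp only [List.map_nil, List.prod_nil, this]
      exact zero_mem _
    | cons p l ih =>
      simp only [List.map_cons, List.prod_cons, List.sum_cons]
      have h1 : ⁅X, eg X i y p * (l.map (eg X i y)).prod⁆ =
          ⁅X, eg X i y p⁆ * (l.map (eg X i y)).prod + eg X i y p * ⁅X, (l.map (eg X i y)).prod⁆ := by
        simp only [Ring.lie_def]; noncomm_ring
      have h2 : ⁅X, eg X i y p⁆ = eg X i y (p.1 + 1, p.2) := by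
        unfold eg
        rw [Function.iterate_succ_apply']
      rw [h1, h2]
      have e1 : eg X i y (p.1 + 1, p.2) ∈ Wt K (eg X i y) (fun p => p.1 + 1) Set.univ (p.1 + 2) :=
        Wt_mem (b := (p.1 + 1, p.2)) (Set.mem_univ _) le_rfl
      have e2 : eg X i y p ∈ Wt K (eg X i y) (fun p => p.1 + 1) Set.univ (p.1 + 1) :=
        Wt_mem (b := p) (Set.mem_univ _) le_rfl
      have e3 := Wt_list (K := K) (z := eg X i y) (w := fun p => p.1 + 1) (s := Set.univ) l
        (fun _ _ => trivial) le_rfl
      apply add_mem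
      · exact Wt_le (by omega) (Wt_mul e1 e3)
      · exact Wt_le (by omega) (Wt_mul e2 ih)
  | zero => rw [lie_zero]; exact zero_mem _
  | add x y _ _ hx hy => rw [lie_add]; exact add_mem hx hy
  | smul a x _ hx => rw [lie_smul]; exact Submodule.smul_mem _ _ hx

variable (K) in
include K in
/-- The core of the Engel property. -/
theorem engel_core (X i y : E) (r : ℕ) (hi : (fun u => ⁅X, u⁆)^[r] i = 0)
    (hy : (fun u => ⁅X, u⁆)^[r] y = 0) (N : ℕ)
    (hN : NP (eg X i y '' {p | p.1 < r}) N) : ∃ n, (fun u => ⁅X + i, u⁆)^[n] y = 0 := by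
  have hzero : ∀ k : ℕ, (fun u => ⁅X, u⁆)^[k] (0 : E) = 0 := by
    intro k
    induction k with
    | zero => rfl
    | succ k ih => rw [Function.iterate_succ_apply, lie_zero, ih]
  have h1 : ∀ n, (fun u => ⁅X + i, u⁆)^[n] y ∈ Wt K (eg X i y) (fun p => p.1 + 1) Set.univ (n + 1) := by
    intro n
    induction n with
    | zero => exact Wt_mem (b := (0, false)) (Set.mem_univ _) le_rfl
    | succ n ih =>
      rw [Function.iterate_succ_apply', add_lie]
      have hi' : i ∈ Wt K (eg X i y) (fun p => p.1 + 1) Set.univ 1 :=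
        Wt_mem (b := (0, true)) (Set.mem_univ _) le_rfl
      apply add_mem (lie_eg K X i y ih)
      rw [Ring.lie_def]
      apply sub_mem
      · exact Wt_le (by omega) (Wt_mul hi' ih)
      · exact Wt_le (by omega) (Wt_mul ih hi')
  refine ⟨r * N, ?_⟩
  have h2 := h1 (r * N)
  have h3 : Wt K (eg X i y) (fun p => p.1 + 1) Set.univ (r * N + 1) = ⊥ := by
    rw [eq_bot_iff]
    unfold Wt
    rw [Submodule.span_le]
    rintro _ ⟨l, -, h4, rfl⟩
    rw [SetLike.mem_coe, Submodule.mem_bot]
    by_cases h5 : ∀ p ∈ l, p.1 < r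
    · apply hN.le
      · rw [List.length_map]
        have h6 : (l.map (fun p : ℕ × Bool => p.1 + 1)).sum ≤
            (l.map (fun p : ℕ × Bool => p.1 + 1)).length • r := by
          apply List.sum_le_card_nsmul
          intro x hx
          rw [List.mem_map] at hx
          obtain ⟨p, hp, rfl⟩ := hx
          exact h5 p hp
        rw [List.length_map, smul_eq_mul] at h6
        by_contra hcon
        have h7 : l.length * r ≤ N * r := Nat.mul_le_mul_right r (by omega)
        have h8 : r * N = N * r := mul_comm _ _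
        omega
      · intro x hx
        rw [List.mem_map] at hx
        obtain ⟨p, hp, rfl⟩ := hx
        exact ⟨p, h5 p hp, rfl⟩
    · push Not at h5
      obtain ⟨p, hp, hpr⟩ := h5
      apply List.prod_eq_zero
      rw [List.mem_map]
      refine ⟨p, hp, ?_⟩
      obtain ⟨c, hc⟩ := Nat.exists_eq_add_of_le hpr
      unfold eg
      rw [hc, add_comm, Function.iterate_add_apply]
      split_ifs
      · rw [hi, hzero]
      · rw [hy, hzero]
  rw [h3] at h2
  exact h2

/-- Nilpotency of a Lie algebra generated by finitely many elements with vanishing long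
products. -/
theorem lie_nilpotent {L : Type} [LieRing L] [LieAlgebra K L] (f : L →ₗ⁅K⁆ E)
    (hf : Function.Injective f) (s : Set L) (N : ℕ) (hN : NP (f '' s) N) :
    LieRing.IsNilpotent (LieSubalgebra.lieSpan K L s) := by
  have h0 : ∀ x ∈ LieSubalgebra.lieSpan K L s,
      f x ∈ Wt K (fun x : E => x) (fun _ => 1) (f '' s) 1 := by
    intro x hx
    induction hx using LieSubalgebra.lieSpan_induction with
    | mem x hx =>
      exact Wt_mem (z := fun x : E => x) (w := fun _ => 1) (Set.mem_image_of_mem f hx) le_rfl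
    | zero => rw [map_zero]; exact zero_mem _
    | smul r x _ hx => rw [map_smul]; exact Submodule.smul_mem _ _ hx
    | add x y _ _ hx hy => rw [map_add]; exact add_mem hx hy
    | lie x y _ _ hx hy =>
      rw [LieHom.map_lie, Ring.lie_def]
      exact sub_mem (Wt_le (by omega) (Wt_mul hx hy)) (Wt_le (by omega) (Wt_mul hy hx))
  rw [LieRing.IsNilpotent, LieModule.isNilpotent_iff K]
  refine ⟨N, ?_⟩
  have key : ∀ n, ∀ x ∈ LieModule.lowerCentralSeries K (LieSubalgebra.lieSpan K L s)
      (LieSubalgebra.lieSpan K L s) n,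
      f (x : L) ∈ Wt K (fun x : E => x) (fun _ => 1) (f '' s) (n + 1) := by
    intro n
    induction n with
    | zero => intro x _; exact h0 x.1 x.2
    | succ n ih =>
      intro x hx
      rw [LieModule.lowerCentralSeries_succ, ← LieSubmodule.mem_toSubmodule,
        LieSubmodule.lieIdeal_oper_eq_linear_span'] at hx
      induction hx using Submodule.span_induction with
      | mem x h =>
        obtain ⟨u, -, v, hv, rfl⟩ := h
        have e1 := h0 u.1 u.2
        have e2 := ih v hv
        rw [LieSubalgebra.coe_bracket, LieHom.map_lie, Ring.lie_def]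
        exact sub_mem (Wt_le (by omega) (Wt_mul e1 e2)) (Wt_le (by omega) (Wt_mul e2 e1))
      | zero => rw [ZeroMemClass.coe_zero, map_zero]; exact zero_mem _
      | add x y _ _ hx hy => rw [AddMemClass.coe_add, map_add]; exact add_mem hx hy
      | smul a x _ hx =>
        have e : ((a • x : LieSubalgebra.lieSpan K L s) : L) = a • (x : L) := rfl
        rw [e, map_smul]; exact Submodule.smul_mem _ _ hx
  rw [eq_bot_iff]
  intro x hx
  have h1 := key N x hx
  have h3 : Wt K (fun x : E => x) (fun _ => 1) (f '' s) (N + 1) = ⊥ := by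
    rw [eq_bot_iff]
    unfold Wt
    rw [Submodule.span_le]
    rintro _ ⟨l, h3, h4, rfl⟩
    rw [SetLike.mem_coe, Submodule.mem_bot, List.map_id']
    apply hN.le _ _ h3
    simp only [List.map_const', List.sum_replicate, smul_eq_mul, mul_one] at h4
    omega
  rw [h3, Submodule.mem_bot] at h1
  rw [LieSubmodule.mem_bot]
  apply Subtype.ext
  apply hf
  rw [h1, ZeroMemClass.coe_zero, map_zero]

end Pool.Agent.Helper824.Lev
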