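import Pool.Agent.Helper824.GSRel

set_option autoImplicit false
set_option linter.unusedSectionVars false

namespace Pool.Agent.Helper824.Lev

open Module Pool.Agent.Helper824.GS

variable {K : Type} [Field K] {α : Type}

section rel

variable (S : ℕ → Type) [∀ i, Fintype (S i)] (w : ∀ i, S i → ℕ) (P : ∀ i, S i → FA K α)

open Classical in
/-- The relations of degree `m`. -/
noncomputable def Rel2 (m : ℕ) : Submodule K (FA K α) :=
  ∑ i ∈ Finset.range m, Submodule.span K
    (((Finset.univ.filter (fun s : S i => w i s = m)).image (fun s => P i s) :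
      Finset (FA K α)) : Set (FA K α))

open Classical in
theorem finrank_Rel2_le (m : ℕ) : finrank K (Rel2 S w P m) ≤ ∑ i ∈ Finset.range m,
    (Finset.univ.filter (fun s : S i => w i s = m)).card := by
  refine le_trans (finrank_sum_le (Finset.range m) _ ?_ _ rfl).2 ?_
  · intro i _
    exact FiniteDimensional.span_finset K _
  · apply Finset.sum_le_sum
    intro i _
    exact le_trans (finrank_span_finset_le_card _) Finset.card_image_le

theorem Rel2_le_V (hP : ∀ i s, P i s ∈ V K α (w i s)) (m : ℕ) : Rel2 S w P m ≤ V K α m := by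
  apply sum_le_of_le
  intro i _
  rw [Submodule.span_le]
  intro f hf
  simp only [Finset.coe_image, Set.mem_image] at hf
  obtain ⟨s, hs, rfl⟩ := hf
  simp only [Finset.coe_filter, Finset.mem_univ, true_and, Set.mem_ofPred_eq] at hs
  rw [← hs]
  exact hP i s

theorem mem_Rel2 (i : ℕ) (s : S i) (hi : i < w i s) : P i s ∈ Rel2 S w P (w i s) := by
  classical
  have := le_sum_of_mem (f := fun j => Submodule.span K
    (((Finset.univ.filter (fun s' : S j => w j s' = w i s)).image (fun s => P j s) :
      Finset (FA K α)) : Set (FA K α))) (Finset.mem_range.mpr hi)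
  unfold Rel2
  convert this (Submodule.subset_span ?_) using 1
  simp only [Finset.coe_image, Set.mem_image]
  exact ⟨s, by simp, rfl⟩

theorem exists_ideal2 [Fintype α] (t c : ℝ) (ht0 : 0 < t) (hc : 0 < c)
    (hd : 1 + c ≤ (Fintype.card α : ℝ) * t)
    (hP : ∀ i s, P i s ∈ V K α (w i s)) (hw : ∀ i s, i < w i s)
    (hs : ∀ i, ∑ s, t ^ (w i s) ≤ c * (1 / 2) ^ (i + 1)) :
    ∃ R : ℕ → Submodule K (FA K α), (∀ i, R i ≤ V K α i) ∧
      (∀ n, ∃ v : FreeMonoid α, v.length = n ∧ (mon v : FA K α) ∉ Idl R n) ∧
      ∀ i s, P i s ∈ Jsub R := by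
  classical
  refine ⟨Rel2 S w P, Rel2_le_V S w P hP, ?_, ?_⟩
  · apply exists_mon_notMem (Rel2_le_V S w P hP) _ (finrank_Rel2_le S w P) t ht0
    intro n
    have e2 : ∑ i ∈ Finset.range n, (((∑ j ∈ Finset.range (i + 1),
        (Finset.univ.filter (fun s : S j => w j s = i + 1)).card : ℕ) : ℝ)
          * t ^ (i + 1)) ≤ c := by
      calc _ = ∑ i ∈ Finset.range n, ∑ j ∈ Finset.range (i + 1), ∑ s : S j,
              (if w j s = i + 1 then t ^ (w j s) else 0) := by
            apply Finset.sum_congr rfl
            intro i _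
            push_cast
            rw [Finset.sum_mul]
            apply Finset.sum_congr rfl
            intro j _
            rw [Finset.card_filter]
            push_cast
            rw [Finset.sum_mul]
            apply Finset.sum_congr rfl
            intro s _
            split_ifs with h
            · rw [h, one_mul]
            · rw [zero_mul]
        _ ≤ ∑ i ∈ Finset.range n, ∑ j ∈ Finset.range n, ∑ s : S j,
              (if w j s = i + 1 then t ^ (w j s) else 0) := by
            apply Finset.sum_le_sum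
            intro i hi
            rw [Finset.mem_range] at hi
            apply Finset.sum_le_sum_of_subset_of_nonneg
            · intro j hj
              rw [Finset.mem_range] at *
              omega
            · intro j _ _
              apply Finset.sum_nonneg; intro s _
              split_ifs <;> positivity
        _ = ∑ j ∈ Finset.range n, ∑ s : S j, ∑ i ∈ Finset.range n,
              (if w j s = i + 1 then t ^ (w j s) else 0) := by
            rw [Finset.sum_comm]
            apply Finset.sum_congr rfl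
            intro j _
            rw [Finset.sum_comm]
        _ ≤ ∑ j ∈ Finset.range n, ∑ s : S j, t ^ (w j s) := by
            apply Finset.sum_le_sum; intro j _
            apply Finset.sum_le_sum; intro s _
            have hpos := hw j s
            have e3 : ∀ i ∈ Finset.range n, (if w j s = i + 1 then t ^ (w j s) else 0) =
                if i = w j s - 1 then t ^ (w j s) else 0 := by
              intro i _
              have : w j s = i + 1 ↔ i = w j s - 1 := by omega
              simp only [this]
            rw [Finset.sum_congr rfl e3, Finset.sum_ite_eq']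
            split_ifs
            · exact le_rfl
            · positivity
        _ ≤ ∑ j ∈ Finset.range n, c * (1 / 2) ^ (j + 1) := by
            apply Finset.sum_le_sum; intro j _
            exact hs j
        _ ≤ c := by
            rw [← Finset.mul_sum]
            have : ∑ i ∈ Finset.range n, ((1 : ℝ) / 2) ^ (i + 1) ≤ 1 := by
              simp only [pow_succ]
              rw [← Finset.sum_mul]
              have := sum_geometric_two_le n
              linarith
            nlinarith
    linarith
  · intro i s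
    have h1 := mem_Rel2 S w P i s (hw i s)
    have h2 := hw i s
    exact R_le_Jsub (by omega) h1

end rel

section expansion

variable {Ω : Type} [Fintype Ω]

theorem sum_pow_noncomm {A : Type} [Ring A] [Algebra K A] (a : Ω → K) (u : Ω → A) (N : ℕ) :
    (∑ ω, a ω • u ω) ^ N = ∑ p : Fin N → Ω, (∏ j, a (p j)) • ((List.ofFn p).map u).prod := by
  induction N with
  | zero => simp
  | succ N ih =>
    rw [pow_succ', ih, Finset.sum_mul]
    rw [← (Fin.consEquiv (fun _ : Fin (N + 1) => Ω)).sum_comp, Fintype.sum_prod_type]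
    apply Finset.sum_congr rfl
    intro ω _
    rw [Finset.mul_sum]
    apply Finset.sum_congr rfl
    intro p _
    simp only [Fin.consEquiv_apply, Fin.prod_univ_succ, Fin.cons_zero, Fin.cons_succ,
      List.ofFn_succ, List.map_cons, List.prod_cons]
    rw [smul_mul_smul_comm]

open Classical in
/-- The content of a word in the letters `Ω`. -/
noncomputable def cont {N : ℕ} (p : Fin N → Ω) : Ω → Fin (N + 1) := fun ω =>
  ⟨(Finset.univ.filter (fun j => p j = ω)).card, by
    have := Finset.card_filter_le (Finset.univ : Finset (Fin N)) (fun j => p j = ω)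
    rw [Finset.card_univ, Fintype.card_fin] at this
    omega⟩

theorem prod_cont (a : Ω → K) {N : ℕ} (p : Fin N → Ω) :
    ∏ j, a (p j) = ∏ ω, a ω ^ ((cont p ω : Fin (N + 1)) : ℕ) := by
  classical
  rw [← Finset.prod_fiberwise_of_maps_to (s := Finset.univ) (t := Finset.univ) (g := p)
    (fun _ _ => Finset.mem_univ _)]
  apply Finset.prod_congr rfl
  intro ω _
  rw [Finset.prod_congr rfl (g := fun _ => a ω)
    (fun j hj => by rw [Finset.mem_filter] at hj; rw [hj.2]), Finset.prod_const]
  rfl

theorem sum_cont (v : Ω → ℕ) {N : ℕ} (p : Fin N → Ω) :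
    ∑ j, v (p j) = ∑ ω, ((cont p ω : Fin (N + 1)) : ℕ) * v ω := by
  classical
  rw [← Finset.sum_fiberwise_of_maps_to (s := Finset.univ) (t := Finset.univ) (g := p)
    (fun _ _ => Finset.mem_univ _)]
  apply Finset.sum_congr rfl
  intro ω _
  rw [Finset.sum_congr rfl (g := fun _ => v ω)
    (fun j hj => by rw [Finset.mem_filter] at hj; rw [hj.2]), Finset.sum_const, smul_eq_mul]
  rfl

open Classical in
/-- The sum of the words of a given content. -/
noncomputable def PP (u : Ω → FA K α) (N : ℕ) (s : Ω → Fin (N + 1)) : FA K α :=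
  ∑ p ∈ Finset.univ.filter (fun p : Fin N → Ω => cont p = s), ev u p

theorem pow_mem_of_PP (u : Ω → FA K α) (N : ℕ) (J : Submodule K (FA K α))
    (h : ∀ s : Ω → Fin (N + 1), PP u N s ∈ J) (a : Ω → K) : (∑ ω, a ω • u ω) ^ N ∈ J := by
  classical
  rw [sum_pow_noncomm]
  rw [← Finset.sum_fiberwise_of_maps_to (s := Finset.univ) (t := Finset.univ)
    (g := fun p : Fin N → Ω => cont p) (fun _ _ => Finset.mem_univ _)]
  apply Submodule.sum_mem
  intro s _
  have h1 : ∑ p ∈ Finset.univ.filter (fun p : Fin N → Ω => cont p = s),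
      (∏ j, a (p j)) • ((List.ofFn p).map u).prod = (∏ ω, a ω ^ (s ω : ℕ)) • PP u N s := by
    unfold PP
    rw [Finset.smul_sum]
    apply Finset.sum_congr rfl
    intro p hp
    rw [Finset.mem_filter] at hp
    rw [prod_cont, hp.2]
    rfl
  rw [h1]
  exact Submodule.smul_mem _ _ (h s)

theorem PP_mem_V (u : Ω → FA K α) (v : Ω → ℕ) (hu : ∀ ω, u ω ∈ V K α (v ω)) (N : ℕ)
    (s : Ω → Fin (N + 1)) : PP u N s ∈ V K α (∑ ω, (s ω : ℕ) * v ω) := by
  classical
  apply Submodule.sum_mem
  intro p hp
  rw [Finset.mem_filter] at hp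
  have h1 : ∀ l : List Ω, (l.map u).prod ∈ V K α (l.map v).sum := by
    intro l
    induction l with
    | nil =>
      simp only [List.map_nil, List.prod_nil, List.sum_nil, V_zero]
      exact Submodule.one_le.mp le_rfl
    | cons ω l ih =>
      simp only [List.map_cons, List.prod_cons, List.sum_cons]
      rw [← V_mul_V]
      exact Submodule.mul_mem_mul (hu ω) ih
  have h2 : ((List.ofFn p).map v).sum = ∑ ω, (s ω : ℕ) * v ω := by
    rw [List.map_ofFn, List.sum_ofFn, ← hp.2]
    exact sum_cont v p
  rw [← h2]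
  exact h1 _

theorem PP_eq_zero (u : Ω → FA K α) (N : ℕ) (s : Ω → Fin (N + 1))
    (h : ∑ ω, (s ω : ℕ) ≠ N) : PP u N s = 0 := by
  classical
  apply Finset.sum_eq_zero
  intro p hp
  exfalso
  rw [Finset.mem_filter] at hp
  apply h
  have := sum_cont (fun _ => 1) p
  simp only [Finset.sum_const, Finset.card_univ, Fintype.card_fin, smul_eq_mul, mul_one] at this
  rw [← hp.2]
  exact this.symm

end expansion

theorem exists_N2 (D : ℕ) (t c : ℝ) (ht0 : 0 < t) (ht1 : t < 1) (hc : 0 < c) (i : ℕ) :
    ∃ N : ℕ, i + 1 ≤ N ∧ ((N : ℝ) + 1) ^ D * t ^ N ≤ c := by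
  have h := (tendsto_pow_const_mul_const_pow_of_abs_lt_one D
    (by rw [abs_of_pos ht0]; exact ht1)).eventually (gt_mem_nhds (mul_pos hc ht0))
  obtain ⟨N, h1, h2⟩ := (h.and (Filter.eventually_ge_atTop (i + 2))).exists
  obtain ⟨M, rfl⟩ : ∃ M, N = M + 1 := ⟨N - 1, by omega⟩
  refine ⟨M, by omega, ?_⟩
  rw [pow_succ] at h1
  push_cast at h1
  rw [← mul_assoc] at h1
  exact (lt_of_mul_lt_mul_right h1 ht0.le).le

/-- The words of length between one and `i + 1`. -/
abbrev Om (α : Type) (i : ℕ) : Type := {w : List α // 1 ≤ w.length ∧ w.length ≤ i + 1}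

instance Om_finite (α : Type) [Finite α] (i : ℕ) : Finite (Om α i) := by
  have h := List.finite_length_le α (i + 1)
  exact (h.subset (fun w hw => hw.2) : {w : List α | 1 ≤ w.length ∧ w.length ≤ i + 1}.Finite)

noncomputable instance Om_fintype (α : Type) [Finite α] (i : ℕ) : Fintype (Om α i) :=
  Fintype.ofFinite _

theorem exists_nil_ideal (K : Type) [Field K] : ∃ R : ℕ → Submodule K (FA K (Fin 2)),
    (∀ i, R i ≤ V K (Fin 2) i) ∧
    (∀ n, ∃ v : FreeMonoid (Fin 2), v.length = n ∧ (mon v : FA K (Fin 2)) ∉ Idl R n) ∧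
    ∀ f : FA K (Fin 2), Ord 1 f → ∃ N, f ^ N ∈ Jsub R := by
  classical
  have hN := fun i => exists_N2 (Fintype.card (Om (Fin 2) i)) (3 / 4) (1 / 2 * (1 / 2) ^ (i + 1))
    (by norm_num) (by norm_num) (by positivity) i
  choose N hN1 hN2 using hN
  let u : ∀ i, Om (Fin 2) i → FA K (Fin 2) := fun i ω => mon (FreeMonoid.ofList ω.1)
  let v : ∀ i, Om (Fin 2) i → ℕ := fun i ω => ω.1.length
  have hu : ∀ i ω, u i ω ∈ V K (Fin 2) (v i ω) := fun i ω => mon_mem_V K (Fin 2) _
  let S : ℕ → Type := fun i => {s : Om (Fin 2) i → Fin (N i + 1) // ∑ ω, (s ω : ℕ) = N i}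
  obtain ⟨R, h1, h2, h3⟩ := exists_ideal2 (K := K) (α := Fin 2) S
    (fun i s => ∑ ω, (s.1 ω : ℕ) * v i ω) (fun i s => PP (u i) (N i) s.1) (3 / 4) (1 / 2)
    (by norm_num) (by norm_num) (by rw [Fintype.card_fin]; norm_num)
    (fun i s => PP_mem_V (u i) (v i) (hu i) (N i) s.1)
    (fun i s => by
      have h4 : N i ≤ ∑ ω, (s.1 ω : ℕ) * v i ω := by
        conv_lhs => rw [← s.2]
        apply Finset.sum_le_sum
        intro ω _
        exact Nat.le_mul_of_pos_right _ ω.2.1
      have h5 := hN1 i
      omega)
    (fun i => by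
      have h4 : ∀ s : S i, (3 / 4 : ℝ) ^ (∑ ω, (s.1 ω : ℕ) * v i ω) ≤ (3 / 4) ^ (N i) := by
        intro s
        apply pow_le_pow_of_le_one (by norm_num) (by norm_num)
        conv_lhs => rw [← s.2]
        apply Finset.sum_le_sum
        intro ω _
        exact Nat.le_mul_of_pos_right _ ω.2.1
      refine le_trans (Finset.sum_le_sum (fun s _ => h4 s)) ?_
      rw [Finset.sum_const, nsmul_eq_mul, Finset.card_univ]
      refine le_trans ?_ (hN2 i)
      apply mul_le_mul_of_nonneg_right _ (by positivity)
      have h5 : Fintype.card (S i) ≤ Fintype.card (Om (Fin 2) i → Fin (N i + 1)) :=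
        Fintype.card_subtype_le _
      rw [Fintype.card_fun, Fintype.card_fin] at h5
      exact_mod_cast h5)
  refine ⟨R, h1, h2, ?_⟩
  intro f hf
  obtain ⟨M, hM⟩ := exists_sum_pr K (Fin 2) f
  have h4 : f ∈ Submodule.span K (Set.range (u M)) := by
    rw [hM M le_rfl]
    apply Submodule.sum_mem
    intro n hn
    rw [Finset.mem_range] at hn
    rcases Nat.eq_zero_or_pos n with rfl | hn0
    · rw [hf 0 (by omega)]; exact zero_mem _
    · have h5 : V K (Fin 2) n ≤ Submodule.span K (Set.range (u M)) := by
        unfold V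
        apply Submodule.span_mono
        rintro _ ⟨w, hw, rfl⟩
        simp only [Set.mem_ofPred_eq] at hw
        refine ⟨⟨w.toList, ?_, ?_⟩, rfl⟩
        · have : w.toList.length = n := hw
          omega
        · have : w.toList.length = n := hw
          omega
      exact h5 (pr_mem K (Fin 2) n f)
  rw [Submodule.mem_span_range_iff_exists_fun] at h4
  obtain ⟨a, rfl⟩ := h4
  refine ⟨N M, pow_mem_of_PP (u M) (N M) _ ?_ a⟩
  intro s
  by_cases hs : ∑ ω, (s ω : ℕ) = N M
  · exact h3 M ⟨s, hs⟩
  · rw [PP_eq_zero _ _ _ hs]; exact zero_mem _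

end Pool.Agent.Helper824.Lev
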