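import Pool.Agent.Helper824.Lev.NilAlg
import Pool.Agent.Helper824.Lev.Main

set_option autoImplicit false
set_option linter.unusedSectionVars false

namespace Pool.Agent.Helper824.Lev

open Module Pool.Agent.Helper824.GS Polynomial

variable {K : Type} [Field K] (R : ℕ → Submodule K (FA K (Fin 2)))

/-- The quotient algebra. -/
abbrev Q : Type := FA K (Fin 2) ⧸ GS.J R

/-- The quotient map. -/
noncomputable def q : FA K (Fin 2) →ₐ[K] Q R := Ideal.Quotient.mkₐ K (GS.J R)

theorem q_eq_zero {a : FA K (Fin 2)} : q R a = 0 ↔ a ∈ Jsub R := by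
  change Ideal.Quotient.mk (GS.J R) a = 0 ↔ _
  rw [Ideal.Quotient.eq_zero_iff_mem]
  rfl

theorem q_surj : Function.Surjective (q R) := Ideal.Quotient.mk_surjective

/-- The image of a letter. -/
noncomputable def qx (i : Fin 2) : Q R := q R (mon (FreeMonoid.of i))

/-- The grading, upstairs. -/
noncomputable def DA : FA K (Fin 2) →ₐ[K] (Q R)[X] :=
  MonoidAlgebra.lift K (Q R)[X] (FreeMonoid (Fin 2))
    (FreeMonoid.lift (fun i => C (qx R i) * X))

theorem DA_mon (w : FreeMonoid (Fin 2)) :
    DA R (mon w) = C (q R (mon w)) * X ^ w.length := by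
  have h0 : DA R (mon w) = FreeMonoid.lift (fun i => C (qx R i) * X) w := by
    unfold DA mon
    rw [MonoidAlgebra.lift_single, one_smul]
  rw [h0]
  induction w using FreeMonoid.inductionOn' with
  | one =>
    rw [map_one, mon_one, map_one, map_one, FreeMonoid.length_one, pow_zero, one_mul]
  | of_mul i w ih =>
    have h1 : DA R (mon w) = FreeMonoid.lift (fun i => C (qx R i) * X) w := by
      unfold DA mon
      rw [MonoidAlgebra.lift_single, one_smul]
    rw [map_mul, ih h1, FreeMonoid.lift_eval_of, ← mon_mul, map_mul, map_mul,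
      FreeMonoid.length_mul, FreeMonoid.length_of, add_comm 1 w.length, pow_succ']
    unfold qx
    rw [mul_assoc, ← mul_assoc X, X_mul_C, mul_assoc, ← mul_assoc (C _)]

theorem DA_coeff (f : FA K (Fin 2)) (n : ℕ) :
    (DA R f).coeff n = q R (pr K (Fin 2) n f) := by
  induction f using FA_induction with
  | h0 => simp
  | hadd f g hf hg => rw [map_add, map_add, map_add, coeff_add, hf, hg]
  | hsmul c f hf => rw [map_smul, map_smul, map_smul, coeff_smul, hf]
  | hmon w =>
    rw [DA_mon, pr_mon, coeff_C_mul, coeff_X_pow]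
    split_ifs with h1 h2 h2
    · rw [mul_one]
    · exact absurd h1.symm h2
    · exact absurd h2.symm h1
    · rw [mul_zero, map_zero]

variable (hR : ∀ i, R i ≤ V K (Fin 2) i)

include hR in
theorem DA_eq_zero {f : FA K (Fin 2)} (hf : f ∈ GS.J R) : DA R f = 0 := by
  ext n
  rw [DA_coeff, coeff_zero, q_eq_zero]
  exact Idl_le_Jsub n (pr_mem_Idl hR hf n)

/-- The grading. -/
noncomputable def DQ : Q R →ₐ[K] (Q R)[X] :=
  Ideal.Quotient.liftₐ (GS.J R) (DA R) (fun _ hf => DA_eq_zero R hR hf)

theorem DQ_q (f : FA K (Fin 2)) : DQ R hR (q R f) = DA R f := rfl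

theorem q_mon (v : FreeMonoid (Fin 2)) : q R (mon v) = (v.toList.map (qx R)).prod := by
  induction v using FreeMonoid.inductionOn' with
  | one => simp [mon_one]
  | of_mul i w ih =>
    rw [FreeMonoid.toList_of_mul, List.map_cons, List.prod_cons, ← ih, ← mon_mul, map_mul]
    rfl

theorem exists_NilData (K : Type) [Field K] :
    ∃ (B : Type) (_ : Ring B) (_ : Algebra K B), Nonempty (NilData K B) := by
  obtain ⟨R, hR, h2, h3⟩ := exists_nil_ideal K
  refine ⟨Q R, inferInstance, inferInstance, ⟨⟨DQ R hR, qx R, ?_, ?_, ?_, ?_⟩⟩⟩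
  · intro i
    unfold qx
    rw [DQ_q, DA_mon, FreeMonoid.length_of, pow_one]
  · rw [eq_top_iff]
    rintro b -
    obtain ⟨a, rfl⟩ := q_surj R b
    induction a using FA_induction with
    | h0 => rw [map_zero]; exact zero_mem _
    | hadd f g hf hg => rw [map_add]; exact add_mem hf hg
    | hsmul c f hf => rw [map_smul]; exact Submodule.smul_mem _ _ hf
    | hmon w => exact Submodule.subset_span ⟨w.toList, (q_mon R w).symm⟩
  · intro n
    obtain ⟨v, hv, hv2⟩ := h2 n
    refine ⟨v.toList, hv, ?_⟩
    rw [← q_mon]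
    intro h5
    rw [q_eq_zero] at h5
    have h6 := pr_mem_Idl hR h5 n
    rw [pr_mon, if_pos hv] at h6
    exact hv2 h6
  · intro b hb
    obtain ⟨a, rfl⟩ := q_surj R b
    have h4 : q R (a - pr K _ 0 a) = q R a := by
      rw [DQ_q, DA_coeff] at hb
      rw [map_sub, hb, sub_zero]
    rw [← h4]
    obtain ⟨N, hN⟩ := h3 (a - pr K _ 0 a) (by
      intro m hm
      obtain rfl : m = 0 := by omega
      rw [map_sub, pr_of_mem K _ 0 (pr_mem K _ 0 a), if_pos rfl, sub_self])
    exact ⟨N, by rw [← map_pow, q_eq_zero]; exact hN⟩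

/-- Over every field there are an Engel Lie algebra `A` and an element `a` of its locally nilpotent
radical such that the right multiplication by `a` is not in the locally nilpotent radical of the
multiplication algebra. -/
theorem final (K : Type) [Field K] : ∃ (A : Type) (_ : LieRing A) (_ : LieAlgebra K A),
    IsEngelLie A ∧ ∃ a : A, a ∈ lieRadical K A ∧
      rightMul K a ∉ assocRadical (multAlg K A) := by
  obtain ⟨B, _, _, ⟨d⟩⟩ := exists_NilData K
  exact d.main

end Pool.Agent.Helper824.Lev
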