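import Pool.Agent.Helper824.Lev.Words

set_option autoImplicit false
set_option linter.unusedSectionVars false

namespace Pool.Agent.Helper824.Lev

variable {K V ι : Type} [Field K] [AddCommGroup V] [Module K V]

theorem Has.shift {L : ℕ} {g F : Fm K V} {a b : ℕ} (h : Has L g a b) (c : ℕ)
    (hF : ∀ i j, AltAt i j g → AltAt (c + i) (c + j) F) : Has L F (c + a) (c + b) := by
  classical
  obtain ⟨B, h1, h2, h3⟩ := h
  refine ⟨B.image (fun i => c + i), ?_, ?_, ?_⟩
  · intro i hi
    rw [Finset.mem_image] at hi
    obtain ⟨j, hj, rfl⟩ := hi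
    have := h1 j hj
    omega
  · rw [Finset.card_image_of_injective _ (fun i j hij => by simpa using hij)]
    exact h2
  · intro i hi j hj hij
    rw [Finset.mem_image] at hi hj
    obtain ⟨i', hi', rfl⟩ := hi
    obtain ⟨j', hj', rfl⟩ := hj
    exact hF _ _ (h3 i' hi' j' hj' (by omega))

theorem Has.cat_left {L : ℕ} {f : Fm K V} {a b : ℕ} (h : Has L f a b) (g : Fm K V) {s : ℕ}
    (hb : b ≤ s) : Has L (cat s f g) a b := by
  obtain ⟨B, h1, h2, h3⟩ := h
  refine ⟨B, h1, h2, fun i hi j hj hij l v hli hlj => ?_⟩
  have e1 := h1 i hi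
  have e2 := h1 j hj
  rw [cat_apply, h3 i hi j hj hij (l.take s) v
    (by rw [List.getElem?_take_of_lt (by omega)]; exact hli)
    (by rw [List.getElem?_take_of_lt (by omega)]; exact hlj), zero_mul]

theorem Has.cat_right {L : ℕ} {g : Fm K V} {a b : ℕ} (h : Has L g a b) (f : Fm K V) (s : ℕ) :
    Has L (cat s f g) (s + a) (s + b) := by
  apply h.shift
  intro i j hij l v hli hlj
  rw [cat_apply, hij (l.drop s) v (by rw [List.getElem?_drop]; exact hli)
    (by rw [List.getElem?_drop]; exact hlj), mul_zero]

/-- A dummy slot. -/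
def slot (g : Fm K V) : Fm K V := fun l => match l with
  | [] => 0
  | _ :: l' => g l'

theorem Has.slot {L : ℕ} {g : Fm K V} {a b : ℕ} (h : Has L g a b) :
    Has L (slot g) (1 + a) (1 + b) := by
  apply h.shift
  intro i j hij l v hli hlj
  cases l with
  | nil => rfl
  | cons u l =>
    rw [add_comm, List.getElem?_cons_succ] at hli hlj
    exact hij l v hli hlj

theorem Has.mul {L : ℕ} {f : Fm K V} {a b : ℕ} (h : Has L f a b) (g : Fm K V) :
    Has L (f * g) a b := by
  obtain ⟨B, h1, h2, h3⟩ := h
  refine ⟨B, h1, h2, fun i hi j hj hij l v hli hlj => ?_⟩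
  rw [Pi.mul_apply, h3 i hi j hj hij l v hli hlj, zero_mul]

/-- Every window of length `2 * r` contains a block, and so do the edges. -/
structure Win (L r m : ℕ) (f : Fm K V) : Prop where
  le : r ≤ m
  EL : Has L f 0 r
  ER : Has L f (m - r) m
  WP : ∀ p, p + 2 * r ≤ m → Has L f p (p + 2 * r)

theorem Win.cat {L r m m' : ℕ} {f g : Fm K V} (hf : Win L r m f) (hg : Win L r m' g) :
    Win L r (m + m') (cat m f g) := by
  have h1 := hf.le
  have h2 := hg.le
  refine ⟨by omega, hf.EL.cat_left g h1, (hg.ER.cat_right f m).mono (by omega) (by omega), ?_⟩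
  intro p hp
  by_cases c1 : p + 2 * r ≤ m
  · exact (hf.WP p c1).cat_left g c1
  · by_cases c2 : m ≤ p
    · exact ((hg.WP (p - m) (by omega)).cat_right f m).mono (by omega) (by omega)
    · by_cases c3 : p + r ≤ m
      · exact (hf.ER.cat_left g le_rfl).mono (by omega) (by omega)
      · exact (hg.EL.cat_right f m).mono (by omega) (by omega)

theorem Win.cat_slot {L r m m' : ℕ} {f g : Fm K V} (hf : Win L r m f) (hg : Win L r m' g) :
    Win L r (m + (1 + m')) (Lev.cat m f (slot g)) := by
  have h1 := hf.le
  have h2 := hg.le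
  refine ⟨by omega, hf.EL.cat_left _ h1, (hg.ER.slot.cat_right f m).mono (by omega) (by omega), ?_⟩
  intro p hp
  by_cases c1 : p + 2 * r ≤ m
  · exact (hf.WP p c1).cat_left _ c1
  · by_cases c2 : m + 1 ≤ p
    · exact ((hg.WP (p - (m + 1)) (by omega)).slot.cat_right f m).mono (by omega) (by omega)
    · by_cases c3 : p + r ≤ m
      · exact (hf.ER.cat_left _ le_rfl).mono (by omega) (by omega)
      · exact (hg.EL.slot.cat_right f m).mono (by omega) (by omega)

theorem Win.mul {L r m : ℕ} {f : Fm K V} (hf : Win L r m f) (g : Fm K V) :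
    Win L r m (f * g) :=
  ⟨hf.le, hf.EL.mul g, hf.ER.mul g, fun p hp => (hf.WP p hp).mul g⟩

/-- The coefficient in the nested form. -/
def cc (s : ℕ) (Φ : Fm K V) : List (Option ι) → Fm K V
  | [] => 1
  | some _ :: Q => cat s Φ (cc s Φ Q)
  | none :: Q => slot (cat s Φ (cc s Φ Q))

/-- The selected slots in the nested form. -/
def sel (s : ℕ) : List (Option ι) → List V → List V
  | [], l => l
  | some _ :: Q, l => sel s Q (l.drop s)
  | none :: _, [] => []
  | none :: Q, v :: l => v :: sel s Q (l.drop s)

/-- The positions of the selected slots. -/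
def ps (s : ℕ) : List (Option ι) → ℕ → ℕ
  | [], m => m
  | some _ :: Q, m => s + ps s Q m
  | none :: _, 0 => 0
  | none :: Q, m + 1 => 1 + s + ps s Q m

theorem J_eq (s : ℕ) (Φ : Fm K V) (Q : List (Option ι)) (δ : Fm K V) (l : List V) :
    J s Φ Q δ l = cc s Φ Q l * δ (sel s Q l) := by
  induction Q generalizing δ l with
  | nil => simp [J_nil, cc, sel]
  | cons o Q ih =>
    cases o with
    | some x => rw [J_some, cat_apply, ih, cc, sel, cat_apply, mul_assoc]
    | none =>
      cases l with
      | nil => simp [J_none_nil, cc, slot]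
      | cons v l =>
        rw [J_none_cons, cat_apply, ih, cc, sel, slot, cat_apply, mul_assoc]
        rfl

theorem sel_get (s : ℕ) (Q : List (Option ι)) (l : List V) (m : ℕ) :
    (sel s Q l)[m]? = l[ps s Q m]? := by
  induction Q generalizing l m with
  | nil => rfl
  | cons o Q ih =>
    cases o with
    | some x => rw [sel, ps, ih, List.getElem?_drop]
    | none =>
      cases l with
      | nil => simp [sel]
      | cons v l =>
        cases m with
        | zero => simp [sel, ps]
        | succ m =>
          rw [sel, ps, List.getElem?_cons_succ, ih, List.getElem?_drop]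
          rw [show 1 + s + ps s Q m = (s + ps s Q m) + 1 by omega, List.getElem?_cons_succ]

theorem ps_lt (s : ℕ) (Q : List (Option ι)) {m m' : ℕ} (h : m < m') : ps s Q m < ps s Q m' := by
  induction Q generalizing m m' with
  | nil => exact h
  | cons o Q ih =>
    cases o with
    | some x => have := ih h; simp only [ps]; omega
    | none =>
      cases m with
      | zero =>
        obtain ⟨k, rfl⟩ : ∃ k, m' = k + 1 := ⟨m' - 1, by omega⟩
        simp only [ps]; omega
      | succ m =>
        obtain ⟨k, rfl⟩ : ∃ k, m' = k + 1 := ⟨m' - 1, by omega⟩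
        have := ih (show m < k by omega)
        simp only [ps]; omega

theorem ps_bound (s : ℕ) (Q : List (Option ι)) {m : ℕ} (h : m < nn Q) :
    ps s Q m < nn Q + Q.length * s := by
  induction Q generalizing m with
  | nil => simp [nn] at h
  | cons o Q ih =>
    cases o with
    | some x =>
      simp only [nn] at h
      have := ih h
      simp only [ps, nn, List.length_cons, add_mul]; omega
    | none =>
      simp only [nn] at h
      cases m with
      | zero => simp only [ps, nn]; omega
      | succ m =>
        have := ih (show m < nn Q by omega)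
        simp only [ps, nn, List.length_cons, add_mul]; omega

theorem Win.cc {L r s : ℕ} {Φ : Fm K V} (h : Win L r s Φ) (Q : List (Option ι)) :
    Win L r (s + (nn Q + Q.length * s)) (Lev.cat s Φ (Lev.cc s Φ Q)) := by
  induction Q with
  | nil =>
    have e : s + (nn ([] : List (Option ι)) + ([] : List (Option ι)).length * s) = s := by
      simp [nn]
    rw [e]
    exact ⟨h.le, h.EL.cat_left _ h.le, h.ER.cat_left _ le_rfl, fun p hp => (h.WP p hp).cat_left _ hp⟩
  | cons o Q ih =>
    cases o with
    | some x =>
      have := h.cat ih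
      have e : s + (nn (some x :: Q) + (some x :: Q).length * s) =
          s + (s + (nn Q + Q.length * s)) := by
        simp only [nn, List.length_cons, add_mul]; omega
      rw [e]
      exact this
    | none =>
      have := h.cat_slot ih
      have e : s + (nn (none :: Q) + (none :: Q).length * s) =
          s + (1 + (s + (nn Q + Q.length * s))) := by
        simp only [nn, List.length_cons, add_mul]; omega
      rw [e]
      exact this

theorem Win.next {L r s : ℕ} {Φ : Fm K V} (h : Win L r s Φ) (Q : List (Option ι)) (δ : Fm K V) :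
    Win L r (s + (nn Q + Q.length * s)) (Lev.cat s Φ (J s Φ Q δ)) := by
  have e : Lev.cat s Φ (J s Φ Q δ) = Lev.cat s Φ (Lev.cc s Φ Q) * (fun l => δ (sel s Q (l.drop s))) := by
    funext l
    rw [Pi.mul_apply, cat_apply, cat_apply, J_eq, mul_assoc]
  rw [e]
  exact (h.cc Q).mul _

theorem has_own (s : ℕ) (Φ : Fm K V) (Q : List (Option ι)) (δ : Fm K V)
    (hδ : ∀ i j, i < j → AltAt i j δ) :
    Has (nn Q) (cat s Φ (J s Φ Q δ)) 0 (s + (nn Q + Q.length * s)) := by
  classical
  refine ⟨(Finset.range (nn Q)).image (fun m => s + ps s Q m), ?_, ?_, ?_⟩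
  · intro i hi
    rw [Finset.mem_image] at hi
    obtain ⟨m, hm, rfl⟩ := hi
    rw [Finset.mem_range] at hm
    have := ps_bound s Q hm
    omega
  · rw [Finset.card_image_of_injective, Finset.card_range]
    intro m m' hmm
    simp only at hmm
    by_contra hne
    rcases lt_or_gt_of_ne hne with h | h
    · have := ps_lt s Q h; omega
    · have := ps_lt s Q h; omega
  · intro i hi j hj hij l v hli hlj
    rw [Finset.mem_image] at hi hj
    obtain ⟨m, hm, rfl⟩ := hi
    obtain ⟨m', hm', rfl⟩ := hj
    have hmm : m < m' := by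
      by_contra hne
      rcases Nat.eq_or_lt_of_le (not_lt.mp hne) with h | h
      · subst h; omega
      · have := ps_lt s Q h; omega
    rw [cat_apply, J_eq, hδ m m' hmm _ v, mul_zero, mul_zero]
    · rw [sel_get, List.getElem?_drop]; exact hli
    · rw [sel_get, List.getElem?_drop]; exact hlj

end Pool.Agent.Helper824.Lev
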